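import Mathlib

/-!
# Partial derivatives of smooth functions on `ℝ × ℝ`
-/

set_option autoImplicit false

open Set Filter Topology
open scoped ContDiff

namespace TH266.LT

/-- smooth functions of two variables -/
abbrev Sm (F : ℝ × ℝ → ℝ) : Prop := ContDiff ℝ ∞ F

/-- partial derivative in the first variable -/
noncomputable def dx (F : ℝ × ℝ → ℝ) : ℝ × ℝ → ℝ := fun p => fderiv ℝ F p (1, 0)

/-- partial derivative in the second variable -/
noncomputable def dy (F : ℝ × ℝ → ℝ) : ℝ × ℝ → ℝ := fun p => fderiv ℝ F p (0, 1)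

variable {F G : ℝ × ℝ → ℝ}

theorem Sm.dx (h : Sm F) : Sm (dx F) :=
  (h.fderiv_right (m := ∞) (by simp)).clm_apply contDiff_const

theorem Sm.dy (h : Sm F) : Sm (dy F) :=
  (h.fderiv_right (m := ∞) (by simp)).clm_apply contDiff_const

theorem Sm.diff (h : Sm F) (p : ℝ × ℝ) : DifferentiableAt ℝ F p :=
  (h.differentiable (by simp)) p

theorem Sm.cont (h : Sm F) : Continuous F := ContDiff.continuous h

theorem Sm.hasDerivAt_x (h : Sm F) (x y : ℝ) :
    HasDerivAt (fun t => F (t, y)) (TH266.LT.dx F (x, y)) x := by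
  have h1 : HasFDerivAt F (fderiv ℝ F (x, y)) (x, y) := (h.diff _).hasFDerivAt
  have h2 : HasDerivAt (fun t : ℝ => (t, y)) ((1 : ℝ), (0 : ℝ)) x :=
    (hasDerivAt_id x).prodMk (hasDerivAt_const x y)
  exact h1.comp_hasDerivAt x h2

theorem Sm.hasDerivAt_y (h : Sm F) (x y : ℝ) :
    HasDerivAt (fun t => F (x, t)) (TH266.LT.dy F (x, y)) y := by
  have h1 : HasFDerivAt F (fderiv ℝ F (x, y)) (x, y) := (h.diff _).hasFDerivAt
  have h2 : HasDerivAt (fun t : ℝ => (x, t)) ((0 : ℝ), (1 : ℝ)) y :=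
    (hasDerivAt_const y x).prodMk (hasDerivAt_id y)
  exact h1.comp_hasDerivAt y h2

theorem dx_eq_deriv (h : Sm F) (x y : ℝ) : dx F (x, y) = deriv (fun t => F (t, y)) x :=
  (h.hasDerivAt_x x y).deriv.symm

theorem dy_eq_deriv (h : Sm F) (x y : ℝ) : dy F (x, y) = deriv (fun t => F (x, t)) y :=
  (h.hasDerivAt_y x y).deriv.symm

/-- the mixed partial derivatives agree -/
theorem dx_dy (h : Sm F) : dx (dy F) = dy (dx F) := by
  funext p
  have hd : DifferentiableAt ℝ (fderiv ℝ F) p :=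
    ((h.fderiv_right (m := ∞) (by simp)).differentiable (by simp)) p
  have e1 : ∀ v w : ℝ × ℝ, fderiv ℝ (fun q => fderiv ℝ F q v) p w =
      fderiv ℝ (fderiv ℝ F) p w v := by
    intro v w
    have : HasFDerivAt (fun q => fderiv ℝ F q v)
        ((ContinuousLinearMap.apply ℝ ℝ v).comp (fderiv ℝ (fderiv ℝ F) p)) p :=
      (ContinuousLinearMap.apply ℝ ℝ v).hasFDerivAt.comp p hd.hasFDerivAt
    rw [this.fderiv]
    rfl
  have hsymm : IsSymmSndFDerivAt ℝ F p :=
    (h.contDiffAt).isSymmSndFDerivAt (by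
      simp only [minSmoothness_of_isRCLikeNormedField]
      exact WithTop.coe_le_coe.2 le_top)
  show fderiv ℝ (fun q => fderiv ℝ F q (0, 1)) p (1, 0) =
    fderiv ℝ (fun q => fderiv ℝ F q (1, 0)) p (0, 1)
  rw [e1, e1]
  exact hsymm _ _

theorem dx_add (hF : Sm F) (hG : Sm G) : dx (F + G) = dx F + dx G := by
  funext p
  show fderiv ℝ (F + G) p (1, 0) = _
  rw [fderiv_add (hF.diff p) (hG.diff p)]
  rfl

theorem dy_add (hF : Sm F) (hG : Sm G) : dy (F + G) = dy F + dy G := by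
  funext p
  show fderiv ℝ (F + G) p (0, 1) = _
  rw [fderiv_add (hF.diff p) (hG.diff p)]
  rfl

theorem dx_smul (c : ℝ) (hF : Sm F) : dx (c • F) = c • dx F := by
  funext p
  show fderiv ℝ (c • F) p (1, 0) = _
  rw [fderiv_const_smul (hF.diff p)]
  rfl

theorem dy_smul (c : ℝ) (hF : Sm F) : dy (c • F) = c • dy F := by
  funext p
  show fderiv ℝ (c • F) p (0, 1) = _
  rw [fderiv_const_smul (hF.diff p)]
  rfl

theorem dx_mul (hF : Sm F) (hG : Sm G) : dx (F * G) = F * dx G + G * dx F := by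
  funext p
  show fderiv ℝ (F * G) p (1, 0) = _
  rw [fderiv_mul (hF.diff p) (hG.diff p)]
  rfl

theorem dy_mul (hF : Sm F) (hG : Sm G) : dy (F * G) = F * dy G + G * dy F := by
  funext p
  show fderiv ℝ (F * G) p (0, 1) = _
  rw [fderiv_mul (hF.diff p) (hG.diff p)]
  rfl

theorem dx_zero : dx 0 = 0 := by
  funext p
  show fderiv ℝ (0 : ℝ × ℝ → ℝ) p (1, 0) = 0
  simp

theorem dy_zero : dy 0 = 0 := by
  funext p
  show fderiv ℝ (0 : ℝ × ℝ → ℝ) p (0, 1) = 0
  simp

/-- functions of the first variable only -/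
def fstF (a : ℝ → ℝ) : ℝ × ℝ → ℝ := fun p => a p.1
/-- functions of the second variable only -/
def sndF (b : ℝ → ℝ) : ℝ × ℝ → ℝ := fun p => b p.2

theorem sm_fstF {a : ℝ → ℝ} (ha : ContDiff ℝ ∞ a) : Sm (fstF a) := ha.comp contDiff_fst
theorem sm_sndF {b : ℝ → ℝ} (hb : ContDiff ℝ ∞ b) : Sm (sndF b) := hb.comp contDiff_snd

theorem dy_fstF {a : ℝ → ℝ} (ha : ContDiff ℝ ∞ a) : dy (fstF a) = 0 := by
  funext p
  obtain ⟨x, y⟩ := p
  rw [dy_eq_deriv (sm_fstF ha)]
  simp [fstF]

theorem dx_sndF {b : ℝ → ℝ} (hb : ContDiff ℝ ∞ b) : dx (sndF b) = 0 := by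
  funext p
  obtain ⟨x, y⟩ := p
  rw [dx_eq_deriv (sm_sndF hb)]
  simp [sndF]

theorem sm_sum {ι : Type*} (s : Finset ι) {f : ι → ℝ × ℝ → ℝ} (h : ∀ i ∈ s, Sm (f i)) :
    Sm (∑ i ∈ s, f i) := by
  have := ContDiff.sum (s := s) h
  convert this using 1
  funext p
  simp

theorem dx_sum {ι : Type*} (s : Finset ι) {f : ι → ℝ × ℝ → ℝ} (h : ∀ i ∈ s, Sm (f i)) :
    dx (∑ i ∈ s, f i) = ∑ i ∈ s, dx (f i) := by
  classical
  induction s using Finset.induction_on with
  | empty => simp [dx_zero]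
  | insert i s hi ih =>
    rw [Finset.sum_insert hi, Finset.sum_insert hi,
      dx_add (h i (Finset.mem_insert_self _ _))
        (sm_sum s fun j hj => h j (Finset.mem_insert_of_mem hj)),
      ih fun j hj => h j (Finset.mem_insert_of_mem hj)]

theorem dy_sum {ι : Type*} (s : Finset ι) {f : ι → ℝ × ℝ → ℝ} (h : ∀ i ∈ s, Sm (f i)) :
    dy (∑ i ∈ s, f i) = ∑ i ∈ s, dy (f i) := by
  classical
  induction s using Finset.induction_on with
  | empty => simp [dy_zero]
  | insert i s hi ih =>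
    rw [Finset.sum_insert hi, Finset.sum_insert hi,
      dy_add (h i (Finset.mem_insert_self _ _))
        (sm_sum s fun j hj => h j (Finset.mem_insert_of_mem hj)),
      ih fun j hj => h j (Finset.mem_insert_of_mem hj)]

/-- the translate of a function -/
theorem dx_translate (h : Sm F) (c d : ℝ) (x y : ℝ) (hper : ∀ x y, F (x + c, y + d) = F (x, y)) :
    dx F (x + c, y + d) = dx F (x, y) := by
  rw [dx_eq_deriv h, dx_eq_deriv h]
  have : (fun t => F (t, y)) = fun t => (fun t => F (t, y + d)) (t + c) := by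
    funext t; exact (hper t y).symm
  rw [this]
  exact (deriv_comp_add_const (fun t => F (t, y + d)) c x).symm

theorem dy_translate (h : Sm F) (c d : ℝ) (x y : ℝ) (hper : ∀ x y, F (x + c, y + d) = F (x, y)) :
    dy F (x + c, y + d) = dy F (x, y) := by
  rw [dy_eq_deriv h, dy_eq_deriv h]
  have : (fun t => F (x, t)) = fun t => (fun t => F (x + c, t)) (t + d) := by
    funext t; exact (hper x t).symm
  rw [this]
  exact (deriv_comp_add_const (fun t => F (x + c, t)) d y).symm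

end TH266.LT
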