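import Mathlib

/-!
# Elementary integral inequalities
-/

set_option autoImplicit false

open Set Filter Topology MeasureTheory intervalIntegral

namespace TH266.LT

theorem ii {f : ℝ → ℝ} (hf : Continuous f) (a b : ℝ) : IntervalIntegrable f volume a b :=
  hf.intervalIntegrable a b

theorem integral_sq_sub {g : ℝ → ℝ} (hg : Continuous g) (m u v : ℝ) :
    ∫ t in u..v, (g t - m) ^ 2 =
      (∫ t in u..v, g t ^ 2) - 2 * m * (∫ t in u..v, g t) + m ^ 2 * (v - u) := by
  have e : ∀ t, (g t - m) ^ 2 = (g t ^ 2 - (2 * m) * g t) + m ^ 2 := fun t => by ring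
  simp_rw [e]
  have i1 : IntervalIntegrable (fun t => g t ^ 2) volume u v := ii (by fun_prop) _ _
  have i2 : IntervalIntegrable (fun t => (2 * m) * g t) volume u v := ii (by fun_prop) _ _
  have i3 : IntervalIntegrable (fun _ : ℝ => m ^ 2) volume u v := ii (by fun_prop) _ _
  rw [intervalIntegral.integral_add (i1.sub i2) i3, intervalIntegral.integral_sub i1 i2,
    intervalIntegral.integral_const_mul, intervalIntegral.integral_const]
  simp only [smul_eq_mul]; ring

/-- Cauchy-Schwarz with the constant function -/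
theorem sq_integral_le {g : ℝ → ℝ} (hg : Continuous g) {u v : ℝ} (huv : u ≤ v) :
    (∫ t in u..v, g t) ^ 2 ≤ (v - u) * ∫ t in u..v, g t ^ 2 := by
  rcases huv.eq_or_lt with rfl | h
  · simp
  · have hl : 0 < v - u := sub_pos.2 h
    set I := ∫ t in u..v, g t with hI
    set m := I / (v - u) with hm
    have h0 : 0 ≤ ∫ t in u..v, (g t - m) ^ 2 :=
      integral_nonneg huv fun t _ => sq_nonneg _
    have e : ∫ t in u..v, (g t - m) ^ 2 = (∫ t in u..v, g t ^ 2) - 2 * m * I + m ^ 2 * (v - u) :=
      integral_sq_sub hg m u v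
    rw [e] at h0
    have hmI : m * (v - u) = I := by rw [hm]; field_simp
    have : 2 * m * I - m ^ 2 * (v - u) = m * I := by
      have : m ^ 2 * (v - u) = m * I := by rw [← hmI]; ring
      rw [this]; ring
    have h1 : m * I ≤ ∫ t in u..v, g t ^ 2 := by linarith
    calc I ^ 2 = (v - u) * (m * I) := by rw [← hmI]; ring
      _ ≤ _ := mul_le_mul_of_nonneg_left h1 hl.le

/-- the one dimensional Poincare inequality (crude constant) -/
theorem poincare {f f' : ℝ → ℝ} (hf : ∀ x, HasDerivAt f (f' x) x) (hf' : Continuous f') {c d : ℝ}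
    (hcd : c < d) :
    ∫ x in c..d, f x ^ 2 ≤ (1 / (d - c)) * (∫ x in c..d, f x) ^ 2 +
      (d - c) ^ 2 * ∫ x in c..d, f' x ^ 2 := by
  have hc : Continuous f := continuous_iff_continuousAt.2 fun x => (hf x).continuousAt
  have hl : 0 < d - c := sub_pos.2 hcd
  set I := ∫ x in c..d, f x with hI
  set m := I / (d - c) with hm
  obtain ⟨ξ, hξ, hξm⟩ := exists_hasDerivAt_eq_slope (fun t => ∫ x in c..t, f x) f hcd
    (continuous_iff_continuousAt.2 fun t =>
      (integral_hasDerivAt_right (ii hc _ _) hc.stronglyMeasurable.stronglyMeasurableAtFilter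
        hc.continuousAt).continuousAt).continuousOn
    (fun t _ => integral_hasDerivAt_right (ii hc _ _)
      hc.stronglyMeasurable.stronglyMeasurableAtFilter hc.continuousAt)
  simp only [integral_same, sub_zero] at hξm
  have hfm : f ξ = m := hξm
  set J := ∫ x in c..d, f' x ^ 2 with hJ
  have hJ0 : 0 ≤ J := integral_nonneg hcd.le fun t _ => sq_nonneg _
  have hpt : ∀ x ∈ Icc c d, (f x - m) ^ 2 ≤ (d - c) * J := by
    intro x hx
    have hsub : ∀ u v : ℝ, u ≤ v → c ≤ u → v ≤ d →
        (∫ t in u..v, f' t) ^ 2 ≤ (d - c) * J := by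
      intro u v huv hu hv
      have h1 := sq_integral_le hf' huv
      have h2 : ∫ t in u..v, f' t ^ 2 ≤ J := by
        refine integral_mono_interval hu huv hv ?_ (ii (hf'.pow 2) _ _)
        exact Filter.Eventually.of_forall fun t => sq_nonneg _
      have h3 : 0 ≤ ∫ t in u..v, f' t ^ 2 := integral_nonneg huv fun t _ => sq_nonneg _
      calc _ ≤ (v - u) * ∫ t in u..v, f' t ^ 2 := h1
        _ ≤ (d - c) * J := mul_le_mul (by linarith) h2 h3 hl.le
    have hftc : ∀ u v : ℝ, ∫ t in u..v, f' t = f v - f u := fun u v =>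
      integral_eq_sub_of_hasDerivAt (fun t _ => hf t) (ii hf' _ _)
    rcases le_total ξ x with h | h
    · have := hsub ξ x h hξ.1.le hx.2
      rwa [hftc, hfm] at this
    · have := hsub x ξ h hx.1 hξ.2.le
      rw [hftc, hfm] at this
      calc (f x - m) ^ 2 = (m - f x) ^ 2 := by ring
        _ ≤ _ := this
  have h1 : ∫ x in c..d, (f x - m) ^ 2 ≤ (d - c) * ((d - c) * J) := by
    have := integral_mono_on hcd.le (ii ((hc.sub continuous_const).pow 2) c d)
      (ii (continuous_const (y := (d - c) * J)) c d) hpt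
    simpa using this
  have e : ∫ x in c..d, (f x - m) ^ 2 = (∫ x in c..d, f x ^ 2) - 2 * m * I + m ^ 2 * (d - c) :=
    integral_sq_sub hc m c d
  rw [e] at h1
  have hmI : m * (d - c) = I := by rw [hm]; field_simp
  have h2 : m ^ 2 * (d - c) = m * I := by rw [← hmI]; ring
  have h3 : (1 / (d - c)) * I ^ 2 = m * I := by rw [hm]; ring
  rw [h3]
  nlinarith

/-- a nonnegative continuous function with zero integral vanishes -/
theorem eq_zero_of_integral_eq_zero {g : ℝ → ℝ} (hg : Continuous g) (h0 : ∀ x, 0 ≤ g x) {L : ℝ}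
    (hL : 0 < L) (hint : ∫ x in (0 : ℝ)..L, g x = 0) {x : ℝ} (hx : x ∈ Icc 0 L) : g x = 0 := by
  by_contra hne
  have hpos : 0 < g x := lt_of_le_of_ne (h0 x) (Ne.symm hne)
  have := intervalIntegral.integral_pos hL hg.continuousOn (fun t _ => h0 t) ⟨x, hx, hpos⟩
  linarith

/-- eigenspaces of a symmetric operator span, for an abstract inner product -/
theorem iSup_eigenspace_eq_top {V : Type*} [AddCommGroup V] [Module ℝ V] [FiniteDimensional ℝ V]
    (B : V → V → ℝ) (hadd : ∀ u v w, B (u + v) w = B u w + B v w)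
    (hsmul : ∀ (c : ℝ) u v, B (c • u) v = c * B u v) (hcomm : ∀ u v, B u v = B v u)
    (hpos : ∀ u, 0 ≤ B u u) (hdef : ∀ u, B u u = 0 → u = 0) (T : V →ₗ[ℝ] V)
    (hT : ∀ u v, B (T u) v = B u (T v)) : ⨆ μ : ℝ, Module.End.eigenspace T μ = ⊤ := by
  let core : InnerProductSpace.Core ℝ V :=
    { inner := B
      conj_inner_symm := fun x y => by simpa using (hcomm y x)
      re_inner_nonneg := fun x => by simpa using hpos x
      add_left := hadd
      smul_left := fun x y r => by simpa using hsmul r x y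
      definite := hdef }
  let _ : NormedAddCommGroup V := core.toNormedAddCommGroup
  let _ : InnerProductSpace ℝ V := InnerProductSpace.ofCore core.toCore
  have hs : T.IsSymmetric := fun x y => hT x y
  exact Submodule.orthogonal_eq_bot_iff.1 hs.orthogonalComplement_iSup_eigenspaces_eq_bot

theorem exists_decomp {V : Type*} [AddCommGroup V] [Module ℝ V]
    (T : V →ₗ[ℝ] V) (h : ⨆ μ : ℝ, Module.End.eigenspace T μ = ⊤) (u : V) :
    ∃ (s : Finset ℝ) (g : ℝ → V), (∀ μ, T (g μ) = μ • g μ) ∧ u = ∑ μ ∈ s, g μ := by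
  have hu : u ∈ ⨆ μ : ℝ, Module.End.eigenspace T μ := by rw [h]; trivial
  obtain ⟨f, hf, hsum⟩ := (Submodule.mem_iSup_iff_exists_finsupp _ _).1 hu
  exact ⟨f.support, f, fun μ => Module.End.mem_eigenspace_iff.1 (hf μ), hsum.symm⟩

end TH266.LT
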