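import Mathlib
import Pool.Agent.TH266.LT.Calc
import Pool.Agent.TH266.LT.Int1

/-!
# The space of doubly periodic solutions of `u_xx + u_yy + (a(x) + b(y)) u = 0`
-/

set_option autoImplicit false

open Set Filter Topology MeasureTheory intervalIntegral
open scoped ContDiff

namespace TH266.LT

/-- periods and the separable potential -/
structure Dat where
  /-- first period -/
  L₁ : ℝ
  /-- second period -/
  L₂ : ℝ
  /-- first part of the potential -/
  a : ℝ → ℝ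
  /-- second part of the potential -/
  b : ℝ → ℝ
  hL₁ : 0 < L₁
  hL₂ : 0 < L₂
  ha : ContDiff ℝ ∞ a
  hb : ContDiff ℝ ∞ b
  pa : Function.Periodic a L₁
  pb : Function.Periodic b L₂

variable (D : Dat)

/-- the operator `∂_x² + a(x)` -/
noncomputable def Dat.P (F : ℝ × ℝ → ℝ) : ℝ × ℝ → ℝ := dx (dx F) + fstF D.a * F
/-- the operator `∂_y² + b(y)` -/
noncomputable def Dat.Q (F : ℝ × ℝ → ℝ) : ℝ × ℝ → ℝ := dy (dy F) + sndF D.b * F

variable {D} {F G : ℝ × ℝ → ℝ}

theorem sm_mul (hF : Sm F) (hG : Sm G) : Sm (F * G) := hF.mul hG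
theorem sm_add (hF : Sm F) (hG : Sm G) : Sm (F + G) := hF.add hG

theorem Dat.sm_P (h : Sm F) : Sm (D.P F) := sm_add h.dx.dx (sm_mul (sm_fstF D.ha) h)
theorem Dat.sm_Q (h : Sm F) : Sm (D.Q F) := sm_add h.dy.dy (sm_mul (sm_sndF D.hb) h)

theorem Dat.P_add (hF : Sm F) (hG : Sm G) : D.P (F + G) = D.P F + D.P G := by
  unfold Dat.P
  rw [dx_add hF hG, dx_add hF.dx hG.dx]; ring

theorem Dat.Q_add (hF : Sm F) (hG : Sm G) : D.Q (F + G) = D.Q F + D.Q G := by
  unfold Dat.Q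
  rw [dy_add hF hG, dy_add hF.dy hG.dy]; ring

theorem Dat.P_smul (c : ℝ) (hF : Sm F) : D.P (c • F) = c • D.P F := by
  unfold Dat.P
  rw [dx_smul c hF, dx_smul c hF.dx]
  funext p; simp only [Pi.add_apply, Pi.smul_apply, Pi.mul_apply, smul_eq_mul]; ring

theorem Dat.Q_smul (c : ℝ) (hF : Sm F) : D.Q (c • F) = c • D.Q F := by
  unfold Dat.Q
  rw [dy_smul c hF, dy_smul c hF.dy]
  funext p; simp only [Pi.add_apply, Pi.smul_apply, Pi.mul_apply, smul_eq_mul]; ring

theorem Dat.P_zero : D.P 0 = 0 := by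
  unfold Dat.P; rw [dx_zero, dx_zero]; simp
theorem Dat.Q_zero : D.Q 0 = 0 := by
  unfold Dat.Q; rw [dy_zero, dy_zero]; simp

/-- `∂_y` commutes with `P` -/
theorem Dat.dy_P (hF : Sm F) : dy (D.P F) = D.P (dy F) := by
  unfold Dat.P
  rw [dy_add hF.dx.dx (sm_mul (sm_fstF D.ha) hF), dy_mul (sm_fstF D.ha) hF, dy_fstF D.ha,
    ← dx_dy hF.dx, ← dx_dy hF]
  simp

theorem Dat.dx_Q (hF : Sm F) : dx (D.Q F) = D.Q (dx F) := by
  unfold Dat.Q
  rw [dx_add hF.dy.dy (sm_mul (sm_sndF D.hb) hF), dx_mul (sm_sndF D.hb) hF, dx_sndF D.hb,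
    dx_dy hF.dy, dx_dy hF]
  simp

theorem Dat.Q_P (hF : Sm F) : D.Q (D.P F) = D.P (D.Q F) := by
  have h1 : dy (dy (D.P F)) = D.P (dy (dy F)) := by
    rw [D.dy_P hF, D.dy_P hF.dy]
  have h2 : D.P (D.Q F) = D.P (dy (dy F)) + D.P (sndF D.b * F) := by
    unfold Dat.Q
    exact Dat.P_add hF.dy.dy (sm_mul (sm_sndF D.hb) hF)
  have h3 : D.P (sndF D.b * F) = sndF D.b * D.P F := by
    unfold Dat.P
    have e1 : dx (sndF D.b * F) = sndF D.b * dx F := by
      rw [dx_mul (sm_sndF D.hb) hF, dx_sndF D.hb]; simp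
    rw [e1]
    have e2 : dx (sndF D.b * dx F) = sndF D.b * dx (dx F) := by
      rw [dx_mul (sm_sndF D.hb) hF.dx, dx_sndF D.hb]; simp
    rw [e2]; ring
  rw [h2, h3, ← h1]
  rfl

variable (D)

/-- the space of smooth doubly periodic solutions -/
def Dat.E : Submodule ℝ (ℝ × ℝ → ℝ) where
  carrier := {F | Sm F ∧ (∀ x y, F (x + D.L₁, y) = F (x, y)) ∧ (∀ x y, F (x, y + D.L₂) = F (x, y)) ∧
    D.P F + D.Q F = 0}
  add_mem' := by
    rintro F G ⟨h1, h2, h3, h4⟩ ⟨g1, g2, g3, g4⟩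
    refine ⟨h1.add g1, fun x y => ?_, fun x y => ?_, ?_⟩
    · simp only [Pi.add_apply, h2, g2]
    · simp only [Pi.add_apply, h3, g3]
    · rw [Dat.P_add h1 g1, Dat.Q_add h1 g1]
      have : D.P F + D.P G + (D.Q F + D.Q G) = (D.P F + D.Q F) + (D.P G + D.Q G) := by ring
      rw [this, h4, g4, add_zero]
  zero_mem' := by
    refine ⟨contDiff_const, fun x y => rfl, fun x y => rfl, ?_⟩
    rw [Dat.P_zero, Dat.Q_zero, add_zero]
  smul_mem' := by
    rintro c F ⟨h1, h2, h3, h4⟩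
    refine ⟨h1.const_smul c, fun x y => ?_, fun x y => ?_, ?_⟩
    · simp only [Pi.smul_apply, h2]
    · simp only [Pi.smul_apply, h3]
    · rw [Dat.P_smul c h1, Dat.Q_smul c h1, ← smul_add, h4, smul_zero]

variable {D}

theorem Dat.E_sm (h : F ∈ D.E) : Sm F := h.1
theorem Dat.E_x (h : F ∈ D.E) (x y : ℝ) : F (x + D.L₁, y) = F (x, y) := h.2.1 x y
theorem Dat.E_y (h : F ∈ D.E) (x y : ℝ) : F (x, y + D.L₂) = F (x, y) := h.2.2.1 x y
theorem Dat.E_pde (h : F ∈ D.E) : D.P F + D.Q F = 0 := h.2.2.2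

theorem dx_per₁ (h : Sm F) {L : ℝ} (hp : ∀ x y, F (x + L, y) = F (x, y)) (x y : ℝ) :
    dx F (x + L, y) = dx F (x, y) := by
  have := dx_translate h L 0 x y (fun x y => by rw [add_zero]; exact hp x y)
  rwa [add_zero] at this

theorem dx_per₂ (h : Sm F) {L : ℝ} (hp : ∀ x y, F (x, y + L) = F (x, y)) (x y : ℝ) :
    dx F (x, y + L) = dx F (x, y) := by
  have := dx_translate h 0 L x y (fun x y => by rw [add_zero]; exact hp x y)
  rwa [add_zero] at this

theorem dy_per₁ (h : Sm F) {L : ℝ} (hp : ∀ x y, F (x + L, y) = F (x, y)) (x y : ℝ) :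
    dy F (x + L, y) = dy F (x, y) := by
  have := dy_translate h L 0 x y (fun x y => by rw [add_zero]; exact hp x y)
  rwa [add_zero] at this

theorem dy_per₂ (h : Sm F) {L : ℝ} (hp : ∀ x y, F (x, y + L) = F (x, y)) (x y : ℝ) :
    dy F (x, y + L) = dy F (x, y) := by
  have := dy_translate h 0 L x y (fun x y => by rw [add_zero]; exact hp x y)
  rwa [add_zero] at this

theorem Dat.P_mem (h : F ∈ D.E) : D.P F ∈ D.E := by
  obtain ⟨h1, h2, h3, h4⟩ := h
  refine ⟨Dat.sm_P h1, fun x y => ?_, fun x y => ?_, ?_⟩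
  · simp only [Dat.P, Pi.add_apply, Pi.mul_apply, fstF]
    rw [dx_per₁ h1.dx (dx_per₁ h1 h2), h2, D.pa]
  · simp only [Dat.P, Pi.add_apply, Pi.mul_apply, fstF]
    rw [dx_per₂ h1.dx (dx_per₂ h1 h3), h3]
  · rw [Dat.Q_P h1, ← Dat.P_add (Dat.sm_P h1) (Dat.sm_Q h1), h4, Dat.P_zero]

variable (D)

/-- `P` as a linear operator on the space of solutions -/
noncomputable def Dat.T : D.E →ₗ[ℝ] D.E where
  toFun F := ⟨D.P F.1, Dat.P_mem F.2⟩
  map_add' F G := Subtype.ext (Dat.P_add (Dat.E_sm F.2) (Dat.E_sm G.2))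
  map_smul' c F := Subtype.ext (Dat.P_smul c (Dat.E_sm F.2))

/-- the `L²` inner product over a period cell -/
noncomputable def Dat.ip (F G : ℝ × ℝ → ℝ) : ℝ :=
  ∫ y in (0 : ℝ)..D.L₂, ∫ x in (0 : ℝ)..D.L₁, F (x, y) * G (x, y)

variable {D}

/-- continuity of partial integrals -/
theorem cont_inner {H : ℝ × ℝ → ℝ} (hH : Continuous H) (u v : ℝ) :
    Continuous fun y : ℝ => ∫ x in u..v, H (x, y) := by
  refine continuous_parametric_intervalIntegral_of_continuous' (f := fun y x => H (x, y)) ?_ u v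
  exact hH.comp continuous_swap

theorem cx {H : ℝ × ℝ → ℝ} (hH : Continuous H) (y : ℝ) : Continuous fun x => H (x, y) :=
  hH.comp (continuous_id.prodMk continuous_const)

theorem cy {H : ℝ × ℝ → ℝ} (hH : Continuous H) (x : ℝ) : Continuous fun y => H (x, y) :=
  hH.comp (continuous_const.prodMk continuous_id)

/-- additivity of double integrals -/
theorem dint_add {H K : ℝ × ℝ → ℝ} (hH : Continuous H) (hK : Continuous K) (u v u' v' : ℝ) :
    (∫ y in u'..v', ∫ x in u..v, (H (x, y) + K (x, y))) =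
      (∫ y in u'..v', ∫ x in u..v, H (x, y)) + ∫ y in u'..v', ∫ x in u..v, K (x, y) := by
  rw [← intervalIntegral.integral_add (ii (cont_inner hH u v) _ _) (ii (cont_inner hK u v) _ _)]
  refine intervalIntegral.integral_congr fun y _ => ?_
  exact intervalIntegral.integral_add (ii (cx hH y) _ _) (ii (cx hK y) _ _)

theorem dint_mul (c : ℝ) (H : ℝ × ℝ → ℝ) (u v u' v' : ℝ) :
    (∫ y in u'..v', ∫ x in u..v, c * H (x, y)) = c * ∫ y in u'..v', ∫ x in u..v, H (x, y) := by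
  simp_rw [intervalIntegral.integral_const_mul]

theorem dint_mono {H K : ℝ × ℝ → ℝ} (hH : Continuous H) (hK : Continuous K) {u v u' v' : ℝ}
    (huv : u ≤ v) (huv' : u' ≤ v') (h : ∀ p, H p ≤ K p) :
    (∫ y in u'..v', ∫ x in u..v, H (x, y)) ≤ ∫ y in u'..v', ∫ x in u..v, K (x, y) := by
  refine integral_mono_on huv' (ii (cont_inner hH u v) _ _) (ii (cont_inner hK u v) _ _) ?_
  intro y _
  exact integral_mono_on huv (ii (cx hH y) _ _) (ii (cx hK y) _ _) fun x _ => h _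

theorem dint_nonneg {H : ℝ × ℝ → ℝ} {u v u' v' : ℝ}
    (huv : u ≤ v) (huv' : u' ≤ v') (h : ∀ p, 0 ≤ H p) :
    0 ≤ ∫ y in u'..v', ∫ x in u..v, H (x, y) :=
  integral_nonneg huv' fun _ _ => integral_nonneg huv fun _ _ => h _

/-- Fubini for continuous functions -/
theorem dint_swap {H : ℝ × ℝ → ℝ} (hH : Continuous H) (u v u' v' : ℝ) :
    (∫ y in u'..v', ∫ x in u..v, H (x, y)) = ∫ x in u..v, ∫ y in u'..v', H (x, y) := by
  refine (intervalIntegral_intervalIntegral_swap (F := fun y x => H (x, y)) ?_)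
  have hc : Continuous (Function.uncurry fun y x => H (x, y)) := hH.comp continuous_swap
  have : IntegrableOn (Function.uncurry fun y x => H (x, y)) (uIcc u' v' ×ˢ uIcc u v) :=
    hc.continuousOn.integrableOn_compact (isCompact_uIcc.prod isCompact_uIcc)
  exact this.mono_set (prod_mono uIoc_subset_uIcc uIoc_subset_uIcc)

theorem Dat.ip_add (hF : Sm F) (hG : Sm G) {H : ℝ × ℝ → ℝ} (hH : Sm H) :
    D.ip (F + G) H = D.ip F H + D.ip G H := by
  have := dint_add (H := F * H) (K := G * H) (hF.mul hH).continuous (hG.mul hH).continuous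
    0 D.L₁ 0 D.L₂
  simp only [Pi.mul_apply] at this
  unfold Dat.ip
  rw [← this]
  simp only [Pi.add_apply, add_mul]

theorem Dat.ip_smul (c : ℝ) : D.ip (c • F) G = c * D.ip F G := by
  have := dint_mul c (F * G) 0 D.L₁ 0 D.L₂
  simp only [Pi.mul_apply] at this
  unfold Dat.ip
  rw [← this]
  simp only [Pi.smul_apply, smul_eq_mul, mul_assoc]

theorem Dat.ip_comm : D.ip F G = D.ip G F := by
  unfold Dat.ip
  simp only [mul_comm]

theorem Dat.ip_self_nonneg : 0 ≤ D.ip F F :=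
  dint_nonneg (H := F * F) D.hL₁.le D.hL₂.le fun _ => mul_self_nonneg _

theorem Dat.ip_self_zero (h : F ∈ D.E) (h0 : D.ip F F = 0) : F = 0 := by
  have hc : Continuous (F * F) := (Dat.E_sm h).continuous.mul (Dat.E_sm h).continuous
  funext ⟨x, y⟩
  obtain ⟨x', hx', hxx'⟩ := Function.Periodic.exists_mem_Ico₀ (f := fun x => F (x, y))
    (fun x => Dat.E_x h x y) D.hL₁ x
  obtain ⟨y', hy', hyy'⟩ := Function.Periodic.exists_mem_Ico₀ (f := fun y => F (x', y))
    (fun y => Dat.E_y h x' y) D.hL₂ y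
  rw [hxx', hyy']
  have h1 := eq_zero_of_integral_eq_zero (cont_inner hc 0 D.L₁)
    (fun y => integral_nonneg D.hL₁.le fun x _ => mul_self_nonneg _) D.hL₂ h0
    (x := y') ⟨hy'.1, hy'.2.le⟩
  have h2 := eq_zero_of_integral_eq_zero (cx hc y') (fun x => mul_self_nonneg _) D.hL₁ h1
    (x := x') ⟨hx'.1, hx'.2.le⟩
  exact mul_self_eq_zero.1 h2

/-- `P` is symmetric -/
theorem Dat.ip_P (hF : F ∈ D.E) (hG : G ∈ D.E) : D.ip (D.P F) G = D.ip F (D.P G) := by
  have sF := Dat.E_sm hF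
  have sG := Dat.E_sm hG
  have key : ∀ y, (∫ x in (0 : ℝ)..D.L₁, (D.P F (x, y) * G (x, y))) =
      ∫ x in (0 : ℝ)..D.L₁, (F (x, y) * D.P G (x, y)) := by
    intro y
    rw [← sub_eq_zero, ← intervalIntegral.integral_sub
      (ii (cx (((Dat.sm_P (D := D) sF).mul sG).continuous) y) _ _)
      (ii (cx ((sF.mul (Dat.sm_P (D := D) sG)).continuous) y) _ _)]
    have hd : ∀ x, HasDerivAt (fun t => dx F (t, y) * G (t, y) - F (t, y) * dx G (t, y))
        (D.P F (x, y) * G (x, y) - F (x, y) * D.P G (x, y)) x := by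
      intro x
      have := ((sF.dx.hasDerivAt_x x y).mul (sG.hasDerivAt_x x y)).sub
        ((sF.hasDerivAt_x x y).mul (sG.dx.hasDerivAt_x x y))
      refine this.congr_deriv ?_
      simp only [Dat.P, Pi.add_apply, Pi.mul_apply]
      ring
    rw [integral_eq_sub_of_hasDerivAt (fun x _ => hd x)
      (ii (((cx (((Dat.sm_P (D := D) sF).mul sG).continuous) y)).sub
        (cx ((sF.mul (Dat.sm_P (D := D) sG)).continuous) y)) _ _)]
    have e1 := Dat.E_x hF 0 y
    have e2 := Dat.E_x hG 0 y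
    have e3 := dx_per₁ sF (Dat.E_x hF) 0 y
    have e4 := dx_per₁ sG (Dat.E_x hG) 0 y
    rw [zero_add] at e1 e2 e3 e4
    rw [e1, e2, e3, e4]; ring
  unfold Dat.ip
  exact intervalIntegral.integral_congr fun y _ => key y

/-- the energy identity -/
theorem Dat.energy (hF : F ∈ D.E) :
    (∫ y in (0 : ℝ)..D.L₂, ∫ x in (0 : ℝ)..D.L₁, (dx F (x, y) ^ 2)) +
      (∫ y in (0 : ℝ)..D.L₂, ∫ x in (0 : ℝ)..D.L₁, (dy F (x, y) ^ 2)) =
      ∫ y in (0 : ℝ)..D.L₂, ∫ x in (0 : ℝ)..D.L₁, (D.a x + D.b y) * F (x, y) ^ 2 := by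
  have sF := Dat.E_sm hF
  have h1 : (∫ y in (0 : ℝ)..D.L₂, ∫ x in (0 : ℝ)..D.L₁,
      (dx F (x, y) ^ 2 + F (x, y) * dx (dx F) (x, y))) = 0 := by
    have : ∀ y, (∫ x in (0 : ℝ)..D.L₁, (dx F (x, y) ^ 2 + F (x, y) * dx (dx F) (x, y))) = 0 := by
      intro y
      have hd : ∀ x, HasDerivAt (fun t => F (t, y) * dx F (t, y))
          (dx F (x, y) ^ 2 + F (x, y) * dx (dx F) (x, y)) x := by
        intro x
        refine ((sF.hasDerivAt_x x y).mul (sF.dx.hasDerivAt_x x y)).congr_deriv ?_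
        ring
      rw [integral_eq_sub_of_hasDerivAt (fun x _ => hd x)
        (ii (cx (((sF.dx.pow 2).add (sF.mul sF.dx.dx)).continuous) y) _ _)]
      have e1 := Dat.E_x hF 0 y
      have e3 := dx_per₁ sF (Dat.E_x hF) 0 y
      rw [zero_add] at e1 e3
      rw [e1, e3]; ring
    simp only [this, intervalIntegral.integral_zero]
  have h2 : (∫ y in (0 : ℝ)..D.L₂, ∫ x in (0 : ℝ)..D.L₁,
      (dy F (x, y) ^ 2 + F (x, y) * dy (dy F) (x, y))) = 0 := by
    rw [dint_swap (H := fun p => dy F p ^ 2 + F p * dy (dy F) p)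
      ((sF.dy.pow 2).add (sF.mul sF.dy.dy)).continuous]
    have : ∀ x, (∫ y in (0 : ℝ)..D.L₂, (dy F (x, y) ^ 2 + F (x, y) * dy (dy F) (x, y))) = 0 := by
      intro x
      have hd : ∀ y, HasDerivAt (fun t => F (x, t) * dy F (x, t))
          (dy F (x, y) ^ 2 + F (x, y) * dy (dy F) (x, y)) y := by
        intro y
        refine ((sF.hasDerivAt_y x y).mul (sF.dy.hasDerivAt_y x y)).congr_deriv ?_
        ring
      rw [integral_eq_sub_of_hasDerivAt (fun x _ => hd x)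
        (ii (cy (((sF.dy.pow 2).add (sF.mul sF.dy.dy)).continuous) x) _ _)]
      have e1 := Dat.E_y hF x 0
      have e3 := dy_per₂ sF (Dat.E_y hF) x 0
      rw [zero_add] at e1 e3
      rw [e1, e3]; ring
    simp only [this, intervalIntegral.integral_zero]
  have h3 := dint_add (H := fun p => dx F p ^ 2 + F p * dx (dx F) p)
    (K := fun p => dy F p ^ 2 + F p * dy (dy F) p)
    ((sF.dx.pow 2).add (sF.mul sF.dx.dx)).continuous
    ((sF.dy.pow 2).add (sF.mul sF.dy.dy)).continuous 0 D.L₁ 0 D.L₂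
  rw [h1, h2, add_zero] at h3
  have hV : Continuous fun p : ℝ × ℝ => (D.a p.1 + D.b p.2) * F p ^ 2 := by
    have := D.ha.continuous
    have := D.hb.continuous
    have := sF.continuous
    fun_prop
  have h4 := dint_add (H := fun p => dx F p ^ 2 + F p * dx (dx F) p +
    (dy F p ^ 2 + F p * dy (dy F) p)) (K := fun p => (D.a p.1 + D.b p.2) * F p ^ 2)
    (((sF.dx.pow 2).add (sF.mul sF.dx.dx)).continuous.add
      ((sF.dy.pow 2).add (sF.mul sF.dy.dy)).continuous) hV 0 D.L₁ 0 D.L₂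
  rw [h3, zero_add] at h4
  rw [← h4, ← dint_add (H := fun p => dx F p ^ 2) (K := fun p => dy F p ^ 2)
    (sF.dx.pow 2).continuous (sF.dy.pow 2).continuous]
  refine intervalIntegral.integral_congr fun y _ => intervalIntegral.integral_congr fun x _ => ?_
  have hp := congrFun (Dat.E_pde hF) (x, y)
  simp only [Dat.P, Dat.Q, Pi.add_apply, Pi.mul_apply, fstF, sndF, Pi.zero_apply] at hp
  simp only
  linear_combination (-F (x, y)) * hp

end TH266.LT
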