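import Mathlib

/-!
# Sign changes of linear combinations of eigenfunctions (Sturm), part 1

* `AltTo f A k y`: there is an increasing sequence of `k + 1` points in `(A, ∞)` ending at `y`
  on which `f` takes nonzero values of alternating sign.
* `AltTo.step` : the maximum principle: `f'' - q f` with `q > 0` has at most two sign changes
  less than `f` (on an interval).
-/

set_option autoImplicit false

open Set Filter Topology

namespace TH266.LT

/-- second derivative test, necessary condition -/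
theorem second_nonpos {f f' f'' : ℝ → ℝ} (hf : ∀ x, HasDerivAt f (f' x) x)
    (hf' : ∀ x, HasDerivAt f' (f'' x) x) {m : ℝ} (h : IsLocalMax f m) : f'' m ≤ 0 := by
  have e1 : deriv f = f' := funext fun x => (hf x).deriv
  have e2 : deriv (deriv f) = f'' := by rw [e1]; exact funext fun x => (hf' x).deriv
  by_contra hcon
  push Not at hcon
  have h1 : IsLocalMin f m :=
    isLocalMin_of_deriv_deriv_pos (by rw [e2]; exact hcon) h.deriv_eq_zero (hf m).continuousAt
  have h2 : f =ᶠ[𝓝 m] fun _ => f m := by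
    filter_upwards [h, h1] with y hy1 hy2
    exact le_antisymm hy1 hy2
  have h3 : deriv f =ᶠ[𝓝 m] fun _ => 0 := by
    have := h2.deriv
    filter_upwards [this] with y hy
    rw [hy]; simp
  have h4 : deriv (deriv f) m = 0 := by
    rw [h3.deriv_eq]; simp
  rw [e2] at h4
  linarith

/-- alternating sequences with `k` sign changes, ending at `y` -/
def AltTo (f : ℝ → ℝ) (A : ℝ) : ℕ → ℝ → Prop
  | 0, y => A < y ∧ f y ≠ 0
  | k + 1, y => ∃ x, x < y ∧ AltTo f A k x ∧ f x * f y < 0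

theorem AltTo.lt {f : ℝ → ℝ} {A : ℝ} : ∀ {k : ℕ} {y : ℝ}, AltTo f A k y → A < y
  | 0, _, h => h.1
  | _ + 1, _, ⟨_, hx, h, _⟩ => h.lt.trans hx

theorem AltTo.ne {f : ℝ → ℝ} {A : ℝ} : ∀ {k : ℕ} {y : ℝ}, AltTo f A k y → f y ≠ 0
  | 0, _, h => h.2
  | _ + 1, _, ⟨_, _, _, h⟩ => fun h0 => by rw [h0, mul_zero] at h; exact lt_irrefl _ h

theorem AltTo.drop {f : ℝ → ℝ} {A : ℝ} : ∀ {k : ℕ} {y : ℝ}, AltTo f A (k + 1) y → AltTo f A k y
  | 0, _, h => ⟨h.lt, h.ne⟩
  | _ + 1, _, ⟨x, hx, h, hs⟩ => ⟨x, hx, h.drop, hs⟩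

theorem AltTo.drop_le {f : ℝ → ℝ} {A : ℝ} {y : ℝ} {j k : ℕ} (hjk : j ≤ k) (h : AltTo f A k y) :
    AltTo f A j y := by
  induction k, hjk using Nat.le_induction with
  | base => exact h
  | succ n _ ih => exact ih h.drop

theorem AltTo.congr {f g : ℝ → ℝ} {A : ℝ} {c : ℝ} (hc : 0 < c) (h : ∀ x, g x = c * f x) :
    ∀ {k : ℕ} {y : ℝ}, AltTo f A k y → AltTo g A k y
  | 0, _, ⟨h1, h2⟩ => ⟨h1, by rw [h]; exact mul_ne_zero hc.ne' h2⟩
  | _ + 1, y, ⟨x, hx, h1, hs⟩ => ⟨x, hx, AltTo.congr hc h h1, by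
      rw [h, h]
      have : c * f x * (c * f y) = (c * c) * (f x * f y) := by ring
      rw [this]
      exact mul_neg_of_pos_of_neg (mul_pos hc hc) hs⟩

/-- the sign may be flipped as well -/
theorem AltTo.congr' {f g : ℝ → ℝ} {A : ℝ} {c : ℝ} (hc : c ≠ 0) (h : ∀ x, g x = c * f x) :
    ∀ {k : ℕ} {y : ℝ}, AltTo f A k y → AltTo g A k y
  | 0, _, ⟨h1, h2⟩ => ⟨h1, by rw [h]; exact mul_ne_zero hc h2⟩
  | _ + 1, y, ⟨x, hx, h1, hs⟩ => ⟨x, hx, AltTo.congr' hc h h1, by
      rw [h, h]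
      have : c * f x * (c * f y) = (c * c) * (f x * f y) := by ring
      rw [this]
      exact mul_neg_of_pos_of_neg (mul_self_pos.2 hc) hs⟩

/-- intermediate value: a sign change gives a zero strictly in between -/
theorem exists_zero_between {f : ℝ → ℝ} (hf : Continuous f) {x y : ℝ} (hxy : x < y)
    (hs : f x * f y < 0) : ∃ z, x < z ∧ z < y ∧ f z = 0 := by
  have hx0 : f x ≠ 0 := fun h => by rw [h, zero_mul] at hs; exact lt_irrefl _ hs
  have hy0 : f y ≠ 0 := fun h => by rw [h, mul_zero] at hs; exact lt_irrefl _ hs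
  obtain ⟨z, hz, hz0⟩ : ∃ z ∈ Icc x y, f z = 0 := by
    rcases lt_or_gt_of_ne hx0 with h | h
    · have hy : 0 < f y := by nlinarith [mul_neg_iff.1 hs]
      exact intermediate_value_Icc hxy.le hf.continuousOn ⟨h.le, hy.le⟩
    · have hy : f y < 0 := by
        rcases mul_neg_iff.1 hs with h' | h'
        · exact h'.2
        · linarith
      exact intermediate_value_Icc' hxy.le hf.continuousOn ⟨hy.le, h.le⟩
  refine ⟨z, lt_of_le_of_ne hz.1 ?_, lt_of_le_of_ne hz.2 ?_, hz0⟩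
  · rintro rfl; exact hx0 hz0
  · rintro rfl; exact hy0 hz0

/-- the maximum principle between two zeros -/
theorem exists_opposite {f f' f'' q : ℝ → ℝ} (hf : ∀ x, HasDerivAt f (f' x) x)
    (hf' : ∀ x, HasDerivAt f' (f'' x) x) (hq : ∀ x, 0 < q x) {z z' x : ℝ}
    (hz : f z = 0) (hz' : f z' = 0) (hx : z < x) (hx' : x < z') (hfx : f x ≠ 0) :
    ∃ m, z < m ∧ m < z' ∧ (f'' m - q m * f m) * f x < 0 := by
  have hc : Continuous f := continuous_iff_continuousAt.2 fun x => (hf x).continuousAt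
  rcases lt_or_gt_of_ne hfx with h | h
  · obtain ⟨m, hm, hmax⟩ := isCompact_Icc.exists_isMinOn (nonempty_Icc.2 (hx.trans hx').le)
      (hc.continuousOn (s := Icc z z'))
    have hfm : f m ≤ f x := hmax ⟨hx.le, hx'.le⟩
    have hm1 : z < m := lt_of_le_of_ne hm.1 (by rintro rfl; linarith)
    have hm2 : m < z' := lt_of_le_of_ne hm.2 (by rintro rfl; linarith)
    have hloc : IsLocalMax (fun t => - f t) m := by
      have : IsLocalMin f m := hmax.isLocalMin (Icc_mem_nhds hm1 hm2)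
      exact this.neg
    have h2 : - f'' m ≤ 0 := second_nonpos (f := fun t => - f t) (f' := fun t => - f' t)
      (f'' := fun t => - f'' t) (fun t => (hf t).neg) (fun t => (hf' t).neg) hloc
    refine ⟨m, hm1, hm2, ?_⟩
    have : 0 < f'' m - q m * f m := by nlinarith [hq m, mul_neg_of_pos_of_neg (hq m) (lt_of_le_of_lt hfm h)]
    exact mul_neg_of_pos_of_neg this h
  · obtain ⟨m, hm, hmax⟩ := isCompact_Icc.exists_isMaxOn (nonempty_Icc.2 (hx.trans hx').le)
      (hc.continuousOn (s := Icc z z'))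
    have hfm : f x ≤ f m := hmax ⟨hx.le, hx'.le⟩
    have hm1 : z < m := lt_of_le_of_ne hm.1 (by rintro rfl; linarith)
    have hm2 : m < z' := lt_of_le_of_ne hm.2 (by rintro rfl; linarith)
    have hloc : IsLocalMax f m := hmax.isLocalMax (Icc_mem_nhds hm1 hm2)
    have h2 : f'' m ≤ 0 := second_nonpos hf hf' hloc
    refine ⟨m, hm1, hm2, ?_⟩
    have : f'' m - q m * f m < 0 := by nlinarith [mul_pos (hq m) (lt_of_lt_of_le h hfm)]
    exact mul_neg_of_neg_of_pos this h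

theorem AltTo.zero {f : ℝ → ℝ} (hf : Continuous f) {A : ℝ} {k : ℕ} {y : ℝ}
    (h : AltTo f A (k + 1) y) : ∃ z, A < z ∧ z < y ∧ f z = 0 := by
  obtain ⟨x, hx, h1, hs⟩ := h
  obtain ⟨z, h2, h3, h4⟩ := exists_zero_between hf hx hs
  exact ⟨z, h1.lt.trans h2, h3, h4⟩

theorem mul_pos_of_two_neg {a b c : ℝ} (h1 : a * b < 0) (h2 : b * c < 0) : 0 < a * c := by
  have hb : b ≠ 0 := fun h => by rw [h, mul_zero] at h1; exact lt_irrefl _ h1
  have : 0 < (a * b) * (b * c) := mul_pos_of_neg_of_neg h1 h2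
  have e : (a * b) * (b * c) = (b * b) * (a * c) := by ring
  rw [e] at this
  exact (pos_iff_pos_of_mul_pos this).1 (mul_self_pos.2 hb)

theorem mul_neg_of_neg_pos {a b c : ℝ} (h1 : a * b < 0) (h2 : 0 < b * c) : a * c < 0 := by
  have hb : b ≠ 0 := fun h => by rw [h, mul_zero] at h1; exact lt_irrefl _ h1
  have : (a * b) * (b * c) < 0 := mul_neg_of_neg_of_pos h1 h2
  have e : (a * b) * (b * c) = (b * b) * (a * c) := by ring
  rw [e] at this
  exact (neg_iff_neg_of_mul_pos_dummy (mul_self_pos.2 hb) this)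
where
  neg_iff_neg_of_mul_pos_dummy {u v : ℝ} (hu : 0 < u) (h : u * v < 0) : v < 0 := by
    rcases mul_neg_iff.1 h with h' | h'
    · exact h'.2
    · linarith

/-- the maximum principle for alternating sequences -/
theorem AltTo.step {f f' f'' q : ℝ → ℝ} (hf : ∀ x, HasDerivAt f (f' x) x)
    (hf' : ∀ x, HasDerivAt f' (f'' x) x) (hq : ∀ x, 0 < q x) {A : ℝ} :
    ∀ {k : ℕ} {y : ℝ}, AltTo f A (k + 2) y →
      ∃ z m, m < z ∧ z < y ∧ f z = 0 ∧ AltTo (fun x => f'' x - q x * f x) A k m ∧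
        0 < (f'' m - q m * f m) * f y := by
  have hc : Continuous f := continuous_iff_continuousAt.2 fun x => (hf x).continuousAt
  intro k
  induction k with
  | zero =>
    rintro y ⟨x, hx, h1, hs⟩
    obtain ⟨z', hz'A, hz'x, hz'0⟩ := h1.zero hc
    obtain ⟨z, hxz, hzy, hz0⟩ := exists_zero_between hc hx hs
    obtain ⟨m, hm1, hm2, hm⟩ := exists_opposite hf hf' hq hz'0 hz0 hz'x hxz h1.ne
    refine ⟨z, m, hm2, hzy, hz0, ⟨hz'A.trans hm1, ?_⟩, mul_pos_of_two_neg hm hs⟩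
    intro h0
    simp only at h0
    rw [h0, zero_mul] at hm
    exact lt_irrefl _ hm
  | succ k ih =>
    rintro y ⟨x, hx, h1, hs⟩
    obtain ⟨z', m', hm'z', hz'x, hz'0, halt, hpos⟩ := ih h1
    obtain ⟨z, hxz, hzy, hz0⟩ := exists_zero_between hc hx hs
    obtain ⟨m, hm1, hm2, hm⟩ := exists_opposite hf hf' hq hz'0 hz0 hz'x hxz h1.ne
    refine ⟨z, m, hm2, hzy, hz0, ⟨m', hm'z'.trans hm1, halt, ?_⟩, mul_pos_of_two_neg hm hs⟩
    have : (f'' m - q m * f m) * (f'' m' - q m' * f m') < 0 :=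
      mul_neg_of_neg_pos hm (by rw [mul_comm]; exact hpos)
    simp only
    rw [mul_comm]; exact this

/-- if consecutive zeros are further apart than `ℓ`, alternating sequences are short -/
theorem AltTo.length {h : ℝ → ℝ} (hc : Continuous h) {A ℓ : ℝ}
    (hgap : ∀ p q, p < q → h p = 0 → h q = 0 → ℓ < q - p) :
    ∀ {k : ℕ} {y : ℝ}, AltTo h A (k + 1) y → ∃ z, z < y ∧ h z = 0 ∧ (k : ℝ) * ℓ ≤ z - A := by
  intro k
  induction k with
  | zero =>
    intro y hy
    obtain ⟨z, h1, h2, h3⟩ := hy.zero hc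
    exact ⟨z, h2, h3, by simp; linarith⟩
  | succ k ih =>
    rintro y ⟨x, hx, h1, hs⟩
    obtain ⟨z', hz'x, hz'0, hz'⟩ := ih h1
    obtain ⟨z, hxz, hzy, hz0⟩ := exists_zero_between hc hx hs
    refine ⟨z, hzy, hz0, ?_⟩
    have := hgap z' z (hz'x.trans hxz) hz'0 hz0
    push_cast
    linarith

end TH266.LT
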