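import Mathlib
import Pool.Agent.TH266.LT.Sturm1

/-!
# Sign changes of linear combinations of eigenfunctions (Sturm), part 2

`card_simple_zeros_le`: a finite sum of periodic solutions of `v_j'' = (μ_j - a) v_j` has at most
`L √M / π` simple zeros in a period of length `L`, where `a - μ ≤ M` for the smallest `μ = μ_j`
with `v_j ≠ 0`.
-/

set_option autoImplicit false

open Set Filter Topology

namespace TH266.LT

/-- values on the two sides of a simple zero -/
theorem sides_of_simple {f : ℝ → ℝ} {p c : ℝ} (h : HasDerivAt f c p) (h0 : f p = 0) (hc : c ≠ 0)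
    {α β : ℝ} (hα : α < p) (hβ : p < β) :
    (∃ y, α < y ∧ y < p ∧ f y * c < 0) ∧ (∃ y, p < y ∧ y < β ∧ 0 < f y * c) := by
  have ht : Tendsto (slope f p) (𝓝[≠] p) (𝓝 c) := hasDerivAt_iff_tendsto_slope.1 h
  have ht' : Tendsto (fun y => slope f p y * c) (𝓝[≠] p) (𝓝 (c * c)) := ht.mul_const c
  have hev : ∀ᶠ y in 𝓝[≠] p, 0 < slope f p y * c :=
    ht'.eventually (lt_mem_nhds (mul_self_pos.2 hc))
  rw [eventually_nhdsWithin_iff] at hev
  obtain ⟨δ, hδ, hball⟩ := Metric.eventually_nhds_iff.1 hev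
  constructor
  · set y := p - min (δ / 2) ((p - α) / 2) with hy
    have hm : 0 < min (δ / 2) ((p - α) / 2) := lt_min (by linarith) (by linarith)
    have hyp : y < p := by rw [hy]; linarith
    have hya : α < y := by
      have := min_le_right (δ / 2) ((p - α) / 2)
      rw [hy]; linarith
    have hd : dist y p < δ := by
      rw [Real.dist_eq, abs_lt]
      have := min_le_left (δ / 2) ((p - α) / 2)
      constructor <;> (rw [hy]; linarith)
    have h1 := hball hd (by simp [hyp.ne])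
    refine ⟨y, hya, hyp, ?_⟩
    rw [slope_def_field, h0, sub_zero] at h1
    have h2 : f y * c = (f y / (y - p) * c) * (y - p) := by
      have : y - p ≠ 0 := (sub_neg.2 hyp).ne
      field_simp
    rw [h2]
    exact mul_neg_of_pos_of_neg h1 (sub_neg.2 hyp)
  · set y := p + min (δ / 2) ((β - p) / 2) with hy
    have hm : 0 < min (δ / 2) ((β - p) / 2) := lt_min (by linarith) (by linarith)
    have hyp : p < y := by rw [hy]; linarith
    have hya : y < β := by
      have := min_le_right (δ / 2) ((β - p) / 2)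
      rw [hy]; linarith
    have hd : dist y p < δ := by
      rw [Real.dist_eq, abs_lt]
      have := min_le_left (δ / 2) ((β - p) / 2)
      constructor <;> (rw [hy]; linarith)
    have h1 := hball hd (by simp [hyp.ne'])
    refine ⟨y, hyp, hya, ?_⟩
    rw [slope_def_field, h0, sub_zero] at h1
    have h2 : f y * c = (f y / (y - p) * c) * (y - p) := by
      have : y - p ≠ 0 := (sub_pos.2 hyp).ne'
      field_simp
    rw [h2]
    exact mul_pos h1 (sub_pos.2 hyp)

/-- simple zeros produce an alternating sequence -/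
theorem alt_of_simple {f f' : ℝ → ℝ} (hf : ∀ x, HasDerivAt f (f' x) x) {A : ℝ} (S : Finset ℝ) :
    (∀ z ∈ S, A < z ∧ f z = 0 ∧ f' z ≠ 0) → S.Nonempty → ∀ B, (∀ z ∈ S, z < B) →
      ∃ y, y < B ∧ AltTo f A S.card y := by
  induction S using Finset.induction_on_max with
  | empty => intro _ h; exact absurd h (by simp)
  | insert a s hs ih =>
    intro hz _ B hB
    have ha := hz a (Finset.mem_insert_self _ _)
    have hnot : a ∉ s := fun h => lt_irrefl _ (hs a h)
    rw [Finset.card_insert_of_notMem hnot]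
    rcases s.eq_empty_or_nonempty with rfl | hne
    · obtain ⟨⟨y, hy1, hy2, hy3⟩, ⟨y', hy1', hy2', hy3'⟩⟩ :=
        sides_of_simple (hf a) ha.2.1 ha.2.2 ha.1 (hB a (Finset.mem_insert_self _ _))
      refine ⟨y', hy2', y, hy2.trans hy1', ⟨hy1, ?_⟩, ?_⟩
      · intro h; rw [h, zero_mul] at hy3; exact lt_irrefl _ hy3
      · rw [mul_comm (f y') _] at hy3'
        exact mul_neg_of_neg_pos hy3 hy3'
    · obtain ⟨x, hxa, hx⟩ := ih (fun z hz' => hz z (Finset.mem_insert_of_mem hz')) hne a hs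
      obtain ⟨⟨y, hy1, hy2, hy3⟩, ⟨y', hy1', hy2', hy3'⟩⟩ :=
        sides_of_simple (hf a) ha.2.1 ha.2.2 hxa (hB a (Finset.mem_insert_self _ _))
      have hx0 := hx.ne
      have hfy : f y ≠ 0 := by intro h; rw [h, zero_mul] at hy3; exact lt_irrefl _ hy3
      have hfy' : f y' ≠ 0 := by intro h; rw [h, zero_mul] at hy3'; exact lt_irrefl _ hy3'
      rcases lt_or_gt_of_ne (mul_ne_zero hx0 hfy') with h | h
      · exact ⟨y', hy2', x, hxa.trans hy1', hx, h⟩
      · refine ⟨y, hy2.trans (hB a (Finset.mem_insert_self _ _)), x, hy1, hx, ?_⟩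
        have h1 : f y * f y' < 0 := by
          rw [mul_comm (f y') _] at hy3'
          exact mul_neg_of_neg_pos hy3 hy3'
        rw [mul_comm]
        exact mul_neg_of_neg_pos h1 (by rw [mul_comm]; exact h)

/-- a solution of a linear second order equation with zero Cauchy data vanishes -/
theorem ode_unique {v v' a : ℝ → ℝ} {μ K : ℝ} (hv : ∀ x, HasDerivAt v (v' x) x)
    (hv' : ∀ x, HasDerivAt v' ((μ - a x) * v x) x) (hK : ∀ x, |μ - a x| ≤ K) {x₀ : ℝ}
    (h0 : v x₀ = 0) (h0' : v' x₀ = 0) (x : ℝ) : v x = 0 ∧ v' x = 0 := by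
  have hK0 : 0 ≤ K := (abs_nonneg _).trans (hK 0)
  let V : ℝ → ℝ × ℝ → ℝ × ℝ := fun t y => (y.2, (μ - a t) * y.1)
  have hlip : ∀ t, LipschitzOnWith (Real.toNNReal (max 1 K)) (V t) univ := by
    intro t
    rw [lipschitzOnWith_univ]
    refine LipschitzWith.of_dist_le_mul fun y z => ?_
    rw [Real.coe_toNNReal _ (le_max_of_le_left zero_le_one)]
    rw [Prod.dist_eq, Prod.dist_eq]
    simp only [Real.dist_eq]
    show max |y.2 - z.2| |(μ - a t) * y.1 - (μ - a t) * z.1| ≤ _
    have h1 : |y.1 - z.1| ≤ max |y.1 - z.1| |y.2 - z.2| := le_max_left _ _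
    have h2 : |y.2 - z.2| ≤ max |y.1 - z.1| |y.2 - z.2| := le_max_right _ _
    have h3 : 0 ≤ max |y.1 - z.1| |y.2 - z.2| := (abs_nonneg _).trans h1
    refine max_le ?_ ?_
    · calc |y.2 - z.2| ≤ 1 * max |y.1 - z.1| |y.2 - z.2| := by rw [one_mul]; exact h2
        _ ≤ _ := mul_le_mul_of_nonneg_right (le_max_left _ _) h3
    · rw [← mul_sub, abs_mul]
      exact mul_le_mul ((hK t).trans (le_max_right _ _)) h1 (abs_nonneg _)
        (le_max_of_le_left zero_le_one)
  have := ODE_solution_unique_univ (v := V) (s := fun _ => univ) (f := fun t => (v t, v' t))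
    (g := fun _ => ((0 : ℝ), (0 : ℝ))) (t₀ := x₀) hlip
    (fun t => ⟨(hv t).prodMk (hv' t), mem_univ _⟩)
    (fun t => ⟨by
      have h : V t (0, 0) = 0 := by simp [V]
      have h' := hasDerivAt_const t ((0 : ℝ), (0 : ℝ))
      rw [← h] at h'
      exact h', mem_univ _⟩)
    (by simp [h0, h0'])
  have h2 := congrFun this x
  exact ⟨congrArg Prod.fst h2, congrArg Prod.snd h2⟩

/-- one sided barrier estimate -/
theorem barrier {h h' h'' Q : ℝ → ℝ} (hh : ∀ x, HasDerivAt h (h' x) x)
    (hh' : ∀ x, HasDerivAt h' (h'' x) x) {M ω θ ε p q : ℝ} (hQ : ∀ x, Q x ≤ M)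
    (hω : M < ω ^ 2) (hω0 : 0 < ω) (hθ : 0 < θ) (hpq : p < q)
    (hlen : ω * (q - p) + θ ≤ Real.pi - θ)
    (hε : ∀ x, |h'' x + Q x * h x| ≤ ε) (hp : h p = 0) (hq : h q = 0) {x : ℝ}
    (hx : x ∈ Icc p q) : h x ≤ ε * (1 / (Real.sin θ * (ω ^ 2 - M))) := by
  have hε0 : 0 ≤ ε := (abs_nonneg _).trans (hε 0)
  have hpi : θ ≤ Real.pi / 2 := by nlinarith [mul_pos hω0 (sub_pos.2 hpq)]
  have hσ : 0 < Real.sin θ := Real.sin_pos_of_pos_of_lt_pi hθ (by linarith [Real.pi_pos])
  have hωM : 0 < ω ^ 2 - M := by linarith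
  set K := ε * (1 / (Real.sin θ * (ω ^ 2 - M))) with hK
  have hK0 : 0 ≤ K := by positivity
  let s : ℝ → ℝ := fun t => Real.sin (ω * (t - p) + θ)
  have hs : ∀ t ∈ Icc p q, Real.sin θ ≤ s t := by
    intro t ht
    have h1 : 0 ≤ ω * (t - p) := mul_nonneg hω0.le (sub_nonneg.2 ht.1)
    have h2 : ω * (t - p) ≤ ω * (q - p) := mul_le_mul_of_nonneg_left (by linarith [ht.2]) hω0.le
    have h3 : θ ≤ ω * (t - p) + θ := by linarith
    have h4 : ω * (t - p) + θ ≤ Real.pi - θ := by linarith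
    rcases le_or_gt (ω * (t - p) + θ) (Real.pi / 2) with h5 | h5
    · exact Real.sin_le_sin_of_le_of_le_pi_div_two (by linarith) h5 h3
    · have : Real.sin θ ≤ Real.sin (Real.pi - (ω * (t - p) + θ)) :=
        Real.sin_le_sin_of_le_of_le_pi_div_two (by linarith) (by linarith) (by linarith)
      rwa [Real.sin_pi_sub] at this
  have hspos : ∀ t ∈ Icc p q, 0 < s t := fun t ht => hσ.trans_le (hs t ht)
  have hsd : ∀ t, HasDerivAt s (ω * Real.cos (ω * (t - p) + θ)) t := by
    intro t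
    have h1 : HasDerivAt (fun t : ℝ => ω * (t - p) + θ) ω t := by
      simpa using (((hasDerivAt_id t).sub_const p).const_mul ω).add_const θ
    have := (Real.hasDerivAt_sin (ω * (t - p) + θ)).comp t h1
    simpa [s, Function.comp_def, mul_comm] using this
  have hsd' : ∀ t, HasDerivAt (fun t => ω * Real.cos (ω * (t - p) + θ)) (-(ω ^ 2) * s t) t := by
    intro t
    have h1 : HasDerivAt (fun t : ℝ => ω * (t - p) + θ) ω t := by
      simpa using (((hasDerivAt_id t).sub_const p).const_mul ω).add_const θ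
    have h3 : HasDerivAt (fun t => Real.cos (ω * (t - p) + θ))
        (-Real.sin (ω * (t - p) + θ) * ω) t := h1.cos
    have h2 : HasDerivAt (fun t => ω * Real.cos (ω * (t - p) + θ))
        (ω * (-Real.sin (ω * (t - p) + θ) * ω)) t := h3.const_mul ω
    refine h2.congr_deriv ?_
    show _ = -(ω ^ 2) * Real.sin (ω * (t - p) + θ)
    ring
  have hcont : Continuous h := continuous_iff_continuousAt.2 fun x => (hh x).continuousAt
  have hsc : Continuous s := continuous_iff_continuousAt.2 fun x => (hsd x).continuousAt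
  obtain ⟨m, hm, hmax⟩ := isCompact_Icc.exists_isMaxOn (nonempty_Icc.2 hpq.le)
    ((hcont.continuousOn (s := Icc p q)).div hsc.continuousOn fun t ht => (hspos t ht).ne')
  have hmax' : ∀ t ∈ Icc p q, h t / s t ≤ h m / s m := fun t ht => hmax ht
  have hsx1 : s x ≤ 1 := Real.sin_le_one _
  rcases le_or_gt (h m / s m) 0 with hneg | hpos
  · have h1 := (hmax' x hx).trans hneg
    have : h x ≤ 0 := by
      by_contra hc
      exact absurd (div_pos (not_le.1 hc) (hspos x hx)) (not_lt.2 h1)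
    exact this.trans hK0
  · have hmpos : 0 < h m := by
      have := mul_pos hpos (hspos m hm)
      rwa [div_mul_cancel₀ _ (hspos m hm).ne'] at this
    have hm1 : p < m := lt_of_le_of_ne hm.1 (by rintro rfl; linarith)
    have hm2 : m < q := lt_of_le_of_ne hm.2 (by rintro rfl; linarith)
    set r := h m / s m with hr
    have hg : IsLocalMax (fun t => h t - r * s t) m := by
      filter_upwards [Icc_mem_nhds hm1 hm2] with t ht
      have h1 := hmax' t ht
      have h2 : h t ≤ r * s t := by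
        rwa [div_le_iff₀ (hspos t ht)] at h1
      have h3 : h m - r * s m = 0 := by
        rw [hr, div_mul_cancel₀ _ (hspos m hm).ne', sub_self]
      linarith
    have h2 := second_nonpos (f := fun t => h t - r * s t)
      (f' := fun t => h' t - r * (ω * Real.cos (ω * (t - p) + θ)))
      (f'' := fun t => h'' t - r * (-(ω ^ 2) * s t))
      (fun t => (hh t).sub ((hsd t).const_mul r)) (fun t => (hh' t).sub ((hsd' t).const_mul r)) hg
    have hrs : r * s m = h m := by rw [hr, div_mul_cancel₀ _ (hspos m hm).ne']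
    have h3 : h'' m + ω ^ 2 * h m ≤ 0 := by
      have : r * (-(ω ^ 2) * s m) = -(ω ^ 2) * h m := by rw [← hrs]; ring
      rw [this] at h2
      linarith
    have h4 := (abs_le.1 (hε m)).1
    have h5 : Q m * h m ≤ M * h m := mul_le_mul_of_nonneg_right (hQ m) hmpos.le
    have h6 : (ω ^ 2 - M) * h m ≤ ε := by nlinarith
    have h7 : r ≤ K := by
      have hsm := hs m hm
      have h8 : r * Real.sin θ ≤ h m := by
        rw [← hrs]
        exact mul_le_mul_of_nonneg_left hsm hpos.le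
      have h9 : (r * Real.sin θ) * (ω ^ 2 - M) ≤ ε := by
        calc (r * Real.sin θ) * (ω ^ 2 - M) ≤ h m * (ω ^ 2 - M) :=
              mul_le_mul_of_nonneg_right h8 hωM.le
          _ = (ω ^ 2 - M) * h m := by ring
          _ ≤ ε := h6
      rw [hK, mul_one_div, le_div_iff₀ (mul_pos hσ hωM)]
      linarith
    have h10 := hmax' x hx
    rw [div_le_iff₀ (hspos x hx)] at h10
    calc h x ≤ r * s x := h10
      _ ≤ r * 1 := mul_le_mul_of_nonneg_left hsx1 hpos.le
      _ ≤ K := by linarith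

/-- two sided barrier estimate -/
theorem barrier_abs {h h' h'' Q : ℝ → ℝ} (hh : ∀ x, HasDerivAt h (h' x) x)
    (hh' : ∀ x, HasDerivAt h' (h'' x) x) {M ω θ ε p q : ℝ} (hQ : ∀ x, Q x ≤ M)
    (hω : M < ω ^ 2) (hω0 : 0 < ω) (hθ : 0 < θ) (hpq : p < q)
    (hlen : ω * (q - p) + θ ≤ Real.pi - θ)
    (hε : ∀ x, |h'' x + Q x * h x| ≤ ε) (hp : h p = 0) (hq : h q = 0) {x : ℝ}
    (hx : x ∈ Icc p q) : |h x| ≤ ε * (1 / (Real.sin θ * (ω ^ 2 - M))) := by
  rw [abs_le]
  constructor
  · have := barrier (h := fun t => - h t) (h' := fun t => - h' t) (h'' := fun t => - h'' t)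
      (Q := Q) (fun t => (hh t).neg) (fun t => (hh' t).neg) hQ hω hω0 hθ hpq hlen
      (ε := ε) (fun t => by
        have : -h'' t + Q t * -h t = -(h'' t + Q t * h t) := by ring
        rw [this, abs_neg]; exact hε t) (by simp [hp]) (by simp [hq]) hx
    linarith
  · exact barrier hh hh' hQ hω hω0 hθ hpq hlen hε hp hq hx

theorem periodic_bdd {f : ℝ → ℝ} (hf : Continuous f) {L : ℝ} (hL : 0 < L)
    (hp : Function.Periodic f L) : ∃ C, 0 ≤ C ∧ ∀ x, |f x| ≤ C := by
  obtain ⟨C, hC⟩ := (isCompact_Icc (a := (0 : ℝ)) (b := L)).exists_bound_of_continuousOn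
    hf.continuousOn
  refine ⟨max C 0, le_max_right _ _, fun x => ?_⟩
  obtain ⟨y, hy, hxy⟩ := hp.exists_mem_Ico₀ hL x
  rw [hxy]
  exact (hC y ⟨hy.1, hy.2.le⟩).trans (le_max_left _ _)

theorem periodic_pos_lower {f : ℝ → ℝ} (hf : Continuous f) {L : ℝ} (hL : 0 < L)
    (hp : Function.Periodic f L) (hpos : ∀ x, 0 < f x) : ∃ c, 0 < c ∧ ∀ x, c ≤ f x := by
  obtain ⟨m, _, hmin⟩ := (isCompact_Icc (a := (0 : ℝ)) (b := L)).exists_isMinOn
    (nonempty_Icc.2 hL.le) hf.continuousOn
  refine ⟨f m, hpos m, fun x => ?_⟩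
  obtain ⟨y, hy, hxy⟩ := hp.exists_mem_Ico₀ hL x
  rw [hxy]
  exact hmin ⟨hy.1, hy.2.le⟩

end TH266.LT
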