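import Mathlib
import Pool.Agent.TH266.LT.Space
import Pool.Agent.TH266.LT.Sturm2

/-!
# The space of solutions is finite dimensional, and decomposes under `P`
-/

set_option autoImplicit false

open Set Filter Topology MeasureTheory intervalIntegral
open scoped ContDiff

namespace TH266.LT

variable {D : Dat} {F G : ℝ × ℝ → ℝ}

/-- differentiation under the integral sign -/
theorem hasDerivAt_inner (hF : Sm F) (u v y : ℝ) :
    HasDerivAt (fun y => ∫ x in u..v, F (x, y)) (∫ x in u..v, dy F (x, y)) y := by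
  have hc : Continuous fun t => ∫ x in u..v, dy F (x, t) := cont_inner hF.dy.continuous u v
  have e : (fun y => ∫ x in u..v, F (x, y)) =
      fun y => (∫ x in u..v, F (x, 0)) + ∫ t in (0 : ℝ)..y, ∫ x in u..v, dy F (x, t) := by
    funext y
    rw [dint_swap hF.dy.continuous]
    have : ∀ x, (∫ t in (0 : ℝ)..y, dy F (x, t)) = F (x, y) - F (x, 0) := fun x =>
      integral_eq_sub_of_hasDerivAt (fun t _ => hF.hasDerivAt_y x t)
        (ii (cy hF.dy.continuous x) _ _)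
    simp_rw [this]
    rw [intervalIntegral.integral_sub (ii (cx hF.continuous y) _ _) (ii (cx hF.continuous 0) _ _)]
    ring
  rw [e]
  have := (integral_hasDerivAt_right (ii hc 0 y) hc.stronglyMeasurable.stronglyMeasurableAtFilter
    hc.continuousAt).const_add (∫ x in u..v, F (x, 0))
  exact this

/-- the Poincare inequality on a rectangle -/
theorem poincare2 (hF : Sm F) {u v u' v' : ℝ} (huv : u < v) (huv' : u' < v') :
    (∫ y in u'..v', ∫ x in u..v, F (x, y) ^ 2) ≤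
      (1 / ((v - u) * (v' - u'))) * (∫ y in u'..v', ∫ x in u..v, F (x, y)) ^ 2 +
      (v - u) ^ 2 * (∫ y in u'..v', ∫ x in u..v, dx F (x, y) ^ 2) +
      (v' - u') ^ 2 * ∫ y in u'..v', ∫ x in u..v, dy F (x, y) ^ 2 := by
  have h1 : 0 < v - u := sub_pos.2 huv
  have h2 : 0 < v' - u' := sub_pos.2 huv'
  set g : ℝ → ℝ := fun y => ∫ x in u..v, F (x, y) with hg
  set g' : ℝ → ℝ := fun y => ∫ x in u..v, dy F (x, y) with hg'
  have hgd : ∀ y, HasDerivAt g (g' y) y := fun y => hasDerivAt_inner hF u v y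
  have hgc : Continuous g := cont_inner hF.continuous u v
  have hgc' : Continuous g' := cont_inner hF.dy.continuous u v
  have c2 : Continuous fun y => ∫ x in u..v, F (x, y) ^ 2 :=
    cont_inner (H := fun p => F p ^ 2) (hF.pow 2).continuous u v
  have cx2 : Continuous fun y => ∫ x in u..v, dx F (x, y) ^ 2 :=
    cont_inner (H := fun p => dx F p ^ 2) (hF.dx.pow 2).continuous u v
  have cy2 : Continuous fun y => ∫ x in u..v, dy F (x, y) ^ 2 :=
    cont_inner (H := fun p => dy F p ^ 2) (hF.dy.pow 2).continuous u v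
  -- first in x
  have A : (∫ y in u'..v', ∫ x in u..v, F (x, y) ^ 2) ≤
      ∫ y in u'..v', ((1 / (v - u)) * g y ^ 2 + (v - u) ^ 2 * ∫ x in u..v, dx F (x, y) ^ 2) := by
    refine integral_mono_on huv'.le (ii c2 _ _) (ii (by fun_prop) _ _) fun y _ => ?_
    exact poincare (f := fun x => F (x, y)) (f' := fun x => dx F (x, y))
      (fun x => hF.hasDerivAt_x x y) (cx hF.dx.continuous y) huv
  rw [intervalIntegral.integral_add (ii (by fun_prop) _ _) (ii (by fun_prop) _ _),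
    intervalIntegral.integral_const_mul, intervalIntegral.integral_const_mul] at A
  have B := poincare hgd hgc' huv'
  have C : (∫ y in u'..v', g' y ^ 2) ≤ (v - u) * ∫ y in u'..v', ∫ x in u..v, dy F (x, y) ^ 2 := by
    rw [← intervalIntegral.integral_const_mul]
    refine integral_mono_on huv'.le (ii (hgc'.pow 2) _ _) (ii (by fun_prop) _ _) fun y _ => ?_
    exact sq_integral_le (cx hF.dy.continuous y) huv.le
  have C' : (v' - u') ^ 2 * (∫ y in u'..v', g' y ^ 2) ≤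
      (v' - u') ^ 2 * ((v - u) * ∫ y in u'..v', ∫ x in u..v, dy F (x, y) ^ 2) :=
    mul_le_mul_of_nonneg_left C (by positivity)
  have E : (1 / (v - u)) * (∫ y in u'..v', g y ^ 2) ≤
      (1 / ((v - u) * (v' - u'))) * (∫ y in u'..v', g y) ^ 2 +
      (v' - u') ^ 2 * ∫ y in u'..v', ∫ x in u..v, dy F (x, y) ^ 2 := by
    calc (1 / (v - u)) * (∫ y in u'..v', g y ^ 2)
        ≤ (1 / (v - u)) * ((1 / (v' - u')) * (∫ y in u'..v', g y) ^ 2 +
          (v' - u') ^ 2 * ((v - u) * ∫ y in u'..v', ∫ x in u..v, dy F (x, y) ^ 2)) :=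
          mul_le_mul_of_nonneg_left (by linarith) (by positivity)
      _ = _ := by field_simp
  linarith

/-- splitting a double integral into cells -/
theorem dint_cells {H : ℝ × ℝ → ℝ} (hH : Continuous H) (K : ℕ) (h k : ℝ) :
    (∫ y in (0 : ℝ)..(K * k), ∫ x in (0 : ℝ)..(K * h), H (x, y)) =
      ∑ j ∈ Finset.range K, ∑ i ∈ Finset.range K,
        ∫ y in (j * k)..((j + 1 : ℕ) * k), ∫ x in (i * h)..((i + 1 : ℕ) * h), H (x, y) := by
  have e1 : ∀ y, (∫ x in (0 : ℝ)..(K * h), H (x, y)) =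
      ∑ i ∈ Finset.range K, ∫ x in (i * h)..((i + 1 : ℕ) * h), H (x, y) := by
    intro y
    have := sum_integral_adjacent_intervals (μ := volume) (f := fun x => H (x, y))
      (a := fun i : ℕ => (i : ℝ) * h) (n := K) (fun k _ => ii (cx hH y) _ _)
    simp only [Nat.cast_zero, zero_mul] at this
    exact this.symm
  have hc : Continuous fun y => ∫ x in (0 : ℝ)..(K * h), H (x, y) := cont_inner hH _ _
  have e2 := sum_integral_adjacent_intervals (μ := volume)
    (f := fun y => ∫ x in (0 : ℝ)..(K * h), H (x, y))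
    (a := fun i : ℕ => (i : ℝ) * k) (n := K) (fun k _ => ii hc _ _)
  simp only [Nat.cast_zero, zero_mul] at e2
  rw [← e2]
  refine Finset.sum_congr rfl fun j _ => ?_
  simp_rw [e1]
  rw [intervalIntegral.integral_finsetSum]
  intro i _
  exact ii (cont_inner hH _ _) _ _

/-- the cell averages -/
noncomputable def Dat.Phi (D : Dat) (K : ℕ) : D.E →ₗ[ℝ] (Fin K × Fin K → ℝ) where
  toFun F := fun ij => ∫ y in ((ij.2 : ℕ) * (D.L₂ / K))..(((ij.2 : ℕ) + 1 : ℕ) * (D.L₂ / K)),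
    ∫ x in ((ij.1 : ℕ) * (D.L₁ / K))..(((ij.1 : ℕ) + 1 : ℕ) * (D.L₁ / K)), F.1 (x, y)
  map_add' F G := by
    funext ij
    have := dint_add (Dat.E_sm F.2).continuous (Dat.E_sm G.2).continuous
      ((ij.1 : ℕ) * (D.L₁ / K)) (((ij.1 : ℕ) + 1 : ℕ) * (D.L₁ / K))
      ((ij.2 : ℕ) * (D.L₂ / K)) (((ij.2 : ℕ) + 1 : ℕ) * (D.L₂ / K))
    simp only [Pi.add_apply]
    rw [← this]
    rfl
  map_smul' c F := by
    funext ij
    have := dint_mul c F.1
      ((ij.1 : ℕ) * (D.L₁ / K)) (((ij.1 : ℕ) + 1 : ℕ) * (D.L₁ / K))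
      ((ij.2 : ℕ) * (D.L₂ / K)) (((ij.2 : ℕ) + 1 : ℕ) * (D.L₂ / K))
    simp only [Pi.smul_apply, smul_eq_mul, RingHom.id_apply]
    rw [← this]
    rfl

theorem Dat.exists_pot_le (D : Dat) : ∃ M, 0 < M ∧ ∀ x y, D.a x + D.b y ≤ M := by
  obtain ⟨A, hA, hA'⟩ := periodic_bdd D.ha.continuous D.hL₁ D.pa
  obtain ⟨B, hB, hB'⟩ := periodic_bdd D.hb.continuous D.hL₂ D.pb
  refine ⟨A + B + 1, by linarith, fun x y => ?_⟩
  have := (abs_le.1 (hA' x)).2
  have := (abs_le.1 (hB' y)).2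
  linarith

theorem Dat.exists_inj (D : Dat) : ∃ K : ℕ, Function.Injective (D.Phi K) := by
  obtain ⟨M, hM, hpot⟩ := D.exists_pot_le
  set L := D.L₁ + D.L₂ with hL
  have hL0 : 0 < L := by have := D.hL₁; have := D.hL₂; linarith
  obtain ⟨K, hK⟩ := exists_nat_gt (L * √M + 1)
  have hK1 : (1 : ℝ) < K := lt_of_le_of_lt (by have := Real.sqrt_nonneg M; nlinarith) hK
  have hK0 : (0 : ℝ) < K := by linarith
  refine ⟨K, ?_⟩
  rw [injective_iff_map_eq_zero]
  intro F hF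
  have sF := Dat.E_sm F.2
  set h := D.L₁ / K with hh
  set k := D.L₂ / K with hk
  have hh0 : 0 < h := div_pos D.hL₁ hK0
  have hk0 : 0 < k := div_pos D.hL₂ hK0
  have hKh : (K : ℝ) * h = D.L₁ := by rw [hh]; field_simp
  have hKk : (K : ℝ) * k = D.L₂ := by rw [hk]; field_simp
  have cells := fun {H : ℝ × ℝ → ℝ} (hH : Continuous H) => dint_cells hH K h k
  rw [hKh, hKk] at cells
  have c0 := cells (H := fun p => F.1 p ^ 2) (sF.pow 2).continuous
  have c1 := cells (H := fun p => dx F.1 p ^ 2) (sF.dx.pow 2).continuous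
  have c2 := cells (H := fun p => dy F.1 p ^ 2) (sF.dy.pow 2).continuous
  have hmain : (∫ y in (0 : ℝ)..D.L₂, ∫ x in (0 : ℝ)..D.L₁, F.1 (x, y) ^ 2) ≤
      h ^ 2 * (∫ y in (0 : ℝ)..D.L₂, ∫ x in (0 : ℝ)..D.L₁, dx F.1 (x, y) ^ 2) +
      k ^ 2 * ∫ y in (0 : ℝ)..D.L₂, ∫ x in (0 : ℝ)..D.L₁, dy F.1 (x, y) ^ 2 := by
    rw [c0, c1, c2, Finset.mul_sum, Finset.mul_sum, ← Finset.sum_add_distrib]
    refine Finset.sum_le_sum fun j hj => ?_
    rw [Finset.mul_sum, Finset.mul_sum, ← Finset.sum_add_distrib]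
    refine Finset.sum_le_sum fun i hi => ?_
    have e1 : ((i + 1 : ℕ) : ℝ) * h - i * h = h := by push_cast; ring
    have e2 : ((j + 1 : ℕ) : ℝ) * k - j * k = k := by push_cast; ring
    have h3 := poincare2 sF (u := i * h) (v := (i + 1 : ℕ) * h) (u' := j * k)
      (v' := (j + 1 : ℕ) * k) (by linarith) (by linarith)
    have h4 := congrFun hF (⟨i, Finset.mem_range.1 hi⟩, ⟨j, Finset.mem_range.1 hj⟩)
    have h5 : (∫ y in (j * k)..((j + 1 : ℕ) * k), ∫ x in (i * h)..((i + 1 : ℕ) * h),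
      F.1 (x, y)) = 0 := h4
    rw [h5, e1, e2] at h3
    simpa using h3
  have hen := Dat.energy F.2
  have hI0 : (∫ y in (0 : ℝ)..D.L₂, ∫ x in (0 : ℝ)..D.L₁, F.1 (x, y) ^ 2) = D.ip F.1 F.1 := by
    unfold Dat.ip
    simp only [sq]
  have hVc : Continuous fun p : ℝ × ℝ => (D.a p.1 + D.b p.2) * F.1 p ^ 2 := by
    have := D.ha.continuous
    have := D.hb.continuous
    have := sF.continuous
    fun_prop
  have hpot2 : (∫ y in (0 : ℝ)..D.L₂, ∫ x in (0 : ℝ)..D.L₁, (D.a x + D.b y) * F.1 (x, y) ^ 2) ≤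
      M * D.ip F.1 F.1 := by
    rw [← hI0, ← dint_mul M (fun p => F.1 p ^ 2)]
    exact dint_mono (H := fun p => (D.a p.1 + D.b p.2) * F.1 p ^ 2)
      (K := fun p => M * F.1 p ^ 2) hVc (continuous_const.mul (sF.pow 2).continuous)
      D.hL₁.le D.hL₂.le fun p => mul_le_mul_of_nonneg_right (hpot _ _) (sq_nonneg _)
  set X := ∫ y in (0 : ℝ)..D.L₂, ∫ x in (0 : ℝ)..D.L₁, dx F.1 (x, y) ^ 2 with hX
  set Y := ∫ y in (0 : ℝ)..D.L₂, ∫ x in (0 : ℝ)..D.L₁, dy F.1 (x, y) ^ 2 with hY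
  have hX0 : 0 ≤ X := dint_nonneg (H := fun p => dx F.1 p ^ 2) D.hL₁.le D.hL₂.le
    fun _ => sq_nonneg _
  have hY0 : 0 ≤ Y := dint_nonneg (H := fun p => dy F.1 p ^ 2) D.hL₁.le D.hL₂.le
    fun _ => sq_nonneg _
  set N := D.ip F.1 F.1 with hN
  have hN0 : 0 ≤ N := Dat.ip_self_nonneg
  rw [hI0] at hmain
  have hhl : h ≤ L / K := by
    rw [hh]; exact div_le_div_of_nonneg_right (by have := D.hL₂; linarith) hK0.le
  have hkl : k ≤ L / K := by
    rw [hk]; exact div_le_div_of_nonneg_right (by have := D.hL₁; linarith) hK0.le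
  have hh2 : h ^ 2 ≤ (L / K) ^ 2 := pow_le_pow_left₀ hh0.le hhl 2
  have hk2 : k ^ 2 ≤ (L / K) ^ 2 := pow_le_pow_left₀ hk0.le hkl 2
  have h6 : N ≤ (L / K) ^ 2 * (M * N) := by
    calc N ≤ h ^ 2 * X + k ^ 2 * Y := hmain
      _ ≤ (L / K) ^ 2 * X + (L / K) ^ 2 * Y :=
          add_le_add (mul_le_mul_of_nonneg_right hh2 hX0) (mul_le_mul_of_nonneg_right hk2 hY0)
      _ = (L / K) ^ 2 * (X + Y) := by ring
      _ ≤ (L / K) ^ 2 * (M * N) := mul_le_mul_of_nonneg_left (hen.le.trans hpot2) (by positivity)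
  have h7 : (L / K) ^ 2 * M < 1 := by
    have : (L / K) ^ 2 * M = (L * √M / K) ^ 2 := by
      rw [div_pow, div_pow, mul_pow, Real.sq_sqrt hM.le]; ring
    rw [this]
    have h8 : L * √M / K < 1 := by rw [div_lt_one hK0]; linarith
    have h9 : 0 ≤ L * √M / K := by positivity
    exact pow_lt_one₀ h9 h8 two_ne_zero
  have h10 : N = 0 := by
    by_contra hne
    have hNpos : 0 < N := lt_of_le_of_ne hN0 (Ne.symm hne)
    nlinarith
  exact Subtype.ext (Dat.ip_self_zero F.2 h10)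

instance Dat.finDim (D : Dat) : FiniteDimensional ℝ D.E := by
  obtain ⟨K, hK⟩ := D.exists_inj
  exact FiniteDimensional.of_injective (D.Phi K) hK

/-- decomposition of a solution into joint eigenfunctions of `P` and `Q` -/
theorem Dat.decomp (hF : F ∈ D.E) :
    ∃ (s : Finset ℝ) (g : ℝ → ℝ × ℝ → ℝ), (∀ μ, g μ ∈ D.E ∧ D.P (g μ) = μ • g μ) ∧
      F = ∑ μ ∈ s, g μ := by
  have htop : ⨆ μ : ℝ, Module.End.eigenspace D.T μ = ⊤ :=
    iSup_eigenspace_eq_top (fun F G : D.E => D.ip F.1 G.1)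
      (fun u v w => Dat.ip_add (Dat.E_sm u.2) (Dat.E_sm v.2) (Dat.E_sm w.2))
      (fun c u v => Dat.ip_smul c) (fun u v => Dat.ip_comm) (fun u => Dat.ip_self_nonneg)
      (fun u hu => Subtype.ext (Dat.ip_self_zero u.2 hu)) D.T
      (fun u v => Dat.ip_P u.2 v.2)
  obtain ⟨s, g, hg, hsum⟩ := exists_decomp D.T htop ⟨F, hF⟩
  refine ⟨s, fun μ => (g μ).1, fun μ => ⟨(g μ).2, ?_⟩, ?_⟩
  · exact congrArg Subtype.val (hg μ)
  · have := congrArg Subtype.val hsum
    simpa using this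

end TH266.LT
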