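import Mathlib
import Pool.Agent.TH266.LT.Sturm2

/-!
# Sign changes of linear combinations of eigenfunctions (Sturm), part 3
-/

set_option autoImplicit false

open Set Filter Topology

namespace TH266.LT

section
variable {ι : Type*} [DecidableEq ι] {s : Finset ι} {v v' : ι → ℝ → ℝ} {μ : ι → ℝ} {a : ℝ → ℝ}
  {L M : ℝ}

omit [DecidableEq ι] in
/-- the iterates of the operator `∂² + a - κ` -/
theorem alt_iterate {κ A : ℝ} (hκ : ∀ x, a x < κ)
    (hv : ∀ j ∈ s, ∀ x, HasDerivAt (v j) (v' j x) x)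
    (hv' : ∀ j ∈ s, ∀ x, HasDerivAt (v' j) ((μ j - a x) * v j x) x) :
    ∀ (m k : ℕ) (y : ℝ), AltTo (fun x => ∑ j ∈ s, v j x) A (k + 2 * m) y →
      ∃ y', y' ≤ y ∧ AltTo (fun x => ∑ j ∈ s, (μ j - κ) ^ m * v j x) A k y' := by
  intro m
  induction m with
  | zero => intro k y h; exact ⟨y, le_rfl, by simpa using h⟩
  | succ m ih =>
    intro k y h
    obtain ⟨y', hy', h1⟩ := ih (k + 2) y (by
      have : k + 2 + 2 * m = k + 2 * (m + 1) := by ring
      rw [this]; exact h)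
    obtain ⟨z, m', h2, h3, -, h4, -⟩ := AltTo.step
      (f := fun x => ∑ j ∈ s, (μ j - κ) ^ m * v j x)
      (f' := fun x => ∑ j ∈ s, (μ j - κ) ^ m * v' j x)
      (f'' := fun x => ∑ j ∈ s, (μ j - κ) ^ m * ((μ j - a x) * v j x))
      (q := fun x => κ - a x)
      (fun x => HasDerivAt.fun_sum fun j hj => (hv j hj x).const_mul _)
      (fun x => HasDerivAt.fun_sum fun j hj => (hv' j hj x).const_mul _)
      (fun x => sub_pos.2 (hκ x)) h1
    refine ⟨m', by linarith, ?_⟩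
    have e : (fun x => ∑ j ∈ s, (μ j - κ) ^ m * ((μ j - a x) * v j x) -
        (κ - a x) * ∑ j ∈ s, (μ j - κ) ^ m * v j x) =
        fun x => ∑ j ∈ s, (μ j - κ) ^ (m + 1) * v j x := by
      funext x
      rw [Finset.mul_sum, ← Finset.sum_sub_distrib]
      refine Finset.sum_congr rfl fun j _ => ?_
      ring
    rw [← e]
    exact h4

/-- some iterate has well separated zeros -/
theorem exists_gap (hL : 0 < L) (hM : 0 < M) {κ : ℝ}
    (ha : Continuous a) (haper : Function.Periodic a L)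
    (hv : ∀ j ∈ s, ∀ x, HasDerivAt (v j) (v' j x) x)
    (hv' : ∀ j ∈ s, ∀ x, HasDerivAt (v' j) ((μ j - a x) * v j x) x)
    (hper : ∀ j ∈ s, Function.Periodic (v j) L) (hper' : ∀ j ∈ s, Function.Periodic (v' j) L)
    {j₀ : ι} (hj₀ : j₀ ∈ s) (hne : ∃ x, v j₀ x ≠ 0) (hmin : ∀ j ∈ s, j ≠ j₀ → μ j₀ < μ j)
    (hMa : ∀ x, a x - μ j₀ ≤ M) (hκ : ∀ j ∈ s, μ j < κ) {ℓ : ℝ} (hℓ : 0 < ℓ)
    (hℓM : ℓ * √M < Real.pi) :
    ∃ m : ℕ, ∀ p q, p < q → (∑ j ∈ s, (μ j - κ) ^ m * v j p) = 0 →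
      (∑ j ∈ s, (μ j - κ) ^ m * v j q) = 0 → ℓ < q - p := by
  have hvc : ∀ j ∈ s, Continuous (v j) := fun j hj =>
    continuous_iff_continuousAt.2 fun x => (hv j hj x).continuousAt
  have hvc' : ∀ j ∈ s, Continuous (v' j) := fun j hj =>
    continuous_iff_continuousAt.2 fun x => (hv' j hj x).continuousAt
  -- the lower bound
  obtain ⟨K₀, hK₀, hK₀'⟩ := periodic_bdd (f := fun x => μ j₀ - a x) (by fun_prop) hL
    (fun x => by simp only [haper x])
  obtain ⟨c, hc, hclow⟩ := periodic_pos_lower (f := fun x => v j₀ x ^ 2 + v' j₀ x ^ 2)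
    (((hvc j₀ hj₀).pow 2).add ((hvc' j₀ hj₀).pow 2)) hL
    (fun x => by simp only [hper j₀ hj₀ x, hper' j₀ hj₀ x])
    (fun x => by
      by_contra hcon
      have h1 : v j₀ x ^ 2 + v' j₀ x ^ 2 = 0 := le_antisymm (not_lt.1 hcon) (by positivity)
      have h2 : v j₀ x = 0 := by nlinarith [sq_nonneg (v j₀ x), sq_nonneg (v' j₀ x)]
      have h3 : v' j₀ x = 0 := by nlinarith [sq_nonneg (v j₀ x), sq_nonneg (v' j₀ x)]
      obtain ⟨y, hy⟩ := hne
      exact hy (ode_unique (hv j₀ hj₀) (hv' j₀ hj₀) hK₀' h2 h3 y).1)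
  -- bounds
  have hCex : ∀ j : ι, ∃ C, 0 ≤ C ∧ (j ∈ s → ∀ x, |v j x| ≤ C) := by
    intro j
    by_cases hj : j ∈ s
    · obtain ⟨C, hC, hC'⟩ := periodic_bdd (hvc j hj) hL (hper j hj)
      exact ⟨C, hC, fun _ => hC'⟩
    · exact ⟨0, le_rfl, fun h => absurd h hj⟩
  have hCex' : ∀ j : ι, ∃ C, 0 ≤ C ∧ (j ∈ s → ∀ x, |v' j x| ≤ C) := by
    intro j
    by_cases hj : j ∈ s
    · obtain ⟨C, hC, hC'⟩ := periodic_bdd (hvc' j hj) hL (hper' j hj)
      exact ⟨C, hC, fun _ => hC'⟩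
    · exact ⟨0, le_rfl, fun h => absurd h hj⟩
  choose C hC hCb using hCex
  choose C' hC' hCb' using hCex'
  -- the ratios
  let r : ι → ℝ := fun j => (μ j - κ) / (μ j₀ - κ)
  have hj₀κ : μ j₀ - κ < 0 := by linarith [hκ j₀ hj₀]
  have hr : ∀ j ∈ s, j ≠ j₀ → |r j| < 1 := by
    intro j hj hjj
    have h1 : μ j - κ < 0 := by linarith [hκ j hj]
    have h2 := hmin j hj hjj
    simp only [r]
    rw [abs_div, div_lt_one (abs_pos.2 hj₀κ.ne), abs_of_neg h1, abs_of_neg hj₀κ]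
    linarith
  have hr0 : r j₀ = 1 := div_self hj₀κ.ne
  let w : ι → ℝ := fun j => C j * (1 + |μ j - μ j₀|) + C' j
  have hw : ∀ j, 0 ≤ w j := fun j => by
    have := hC j; have := hC' j; positivity
  let η : ℕ → ℝ := fun m => ∑ j ∈ s.erase j₀, |r j| ^ m * w j
  have hη : Tendsto η atTop (𝓝 0) := by
    have : (0 : ℝ) = ∑ j ∈ s.erase j₀, 0 * w j := by simp
    rw [this]
    refine tendsto_finsetSum _ fun j hj => ?_
    have hj' := Finset.mem_erase.1 hj
    exact (tendsto_pow_atTop_nhds_zero_of_abs_lt_one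
      (by rw [abs_abs]; exact hr j hj'.2 hj'.1)).mul_const _
  -- the barrier
  set ω := (√M + Real.pi / ℓ) / 2 with hωdef
  have hsM : 0 < √M := Real.sqrt_pos.2 hM
  have hlt : √M < Real.pi / ℓ := by rw [lt_div_iff₀ hℓ]; linarith
  have hω0 : 0 < ω := by rw [hωdef]; linarith [hsM.trans hlt]
  have hω1 : √M < ω := by rw [hωdef]; linarith
  have hω2 : ω * ℓ < Real.pi := by
    rw [← lt_div_iff₀ hℓ, hωdef]; linarith
  have hωM : M < ω ^ 2 := by
    have := pow_lt_pow_left₀ hω1 hsM.le (two_ne_zero)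
    rwa [Real.sq_sqrt hM.le] at this
  set θ := (Real.pi - ω * ℓ) / 2 with hθdef
  have hθ : 0 < θ := by rw [hθdef]; linarith
  set K := 1 / (Real.sin θ * (ω ^ 2 - M)) with hKdef
  have hlim : Tendsto (fun m => (η m * K + η m) ^ 2 + η m ^ 2) atTop (𝓝 0) := by
    have := ((((hη.mul_const K).add hη).pow 2).add (hη.pow 2))
    simpa using this
  obtain ⟨m, hm⟩ := (hlim.eventually (gt_mem_nhds hc)).exists
  refine ⟨m, fun p q hpq hp hq => ?_⟩
  by_contra hcon
  push Not at hcon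
  have hden : (μ j₀ - κ) ^ m ≠ 0 := pow_ne_zero _ hj₀κ.ne
  let h : ℝ → ℝ := fun x => ∑ j ∈ s, r j ^ m * v j x
  let h' : ℝ → ℝ := fun x => ∑ j ∈ s, r j ^ m * v' j x
  let h'' : ℝ → ℝ := fun x => ∑ j ∈ s, r j ^ m * ((μ j - a x) * v j x)
  have hh : ∀ x, HasDerivAt h (h' x) x :=
    fun x => HasDerivAt.fun_sum fun j hj => (hv j hj x).const_mul _
  have hh' : ∀ x, HasDerivAt h' (h'' x) x :=
    fun x => HasDerivAt.fun_sum fun j hj => (hv' j hj x).const_mul _
  have hFh : ∀ x, (∑ j ∈ s, (μ j - κ) ^ m * v j x) = (μ j₀ - κ) ^ m * h x := by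
    intro x
    simp only [h, Finset.mul_sum]
    refine Finset.sum_congr rfl fun j _ => ?_
    simp only [r, div_pow]
    field_simp
  have hp0 : h p = 0 := by
    have := hFh p
    rw [hp] at this
    exact (mul_eq_zero.1 this.symm).resolve_left hden
  have hq0 : h q = 0 := by
    have := hFh q
    rw [hq] at this
    exact (mul_eq_zero.1 this.symm).resolve_left hden
  have hbd : ∀ (g : ι → ℝ) , (∀ j ∈ s.erase j₀, |g j| ≤ w j) →
      |∑ j ∈ s.erase j₀, r j ^ m * g j| ≤ η m := by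
    intro g hg
    refine (Finset.abs_sum_le_sum_abs _ _).trans (Finset.sum_le_sum fun j hj => ?_)
    rw [abs_mul, abs_pow]
    exact mul_le_mul_of_nonneg_left (hg j hj) (by positivity)
  have hQ : ∀ x, |h'' x + (a x - μ j₀) * h x| ≤ η m := by
    intro x
    have e : h'' x + (a x - μ j₀) * h x = ∑ j ∈ s.erase j₀, r j ^ m * ((μ j - μ j₀) * v j x) := by
      simp only [h, h'', Finset.mul_sum, ← Finset.sum_add_distrib]
      rw [← Finset.add_sum_erase s _ hj₀]
      have : r j₀ ^ m * ((μ j₀ - a x) * v j₀ x) + (a x - μ j₀) * (r j₀ ^ m * v j₀ x) = 0 := by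
        ring
      rw [this, zero_add]
      refine Finset.sum_congr rfl fun j _ => ?_
      ring
    rw [e]
    refine hbd _ fun j hj => ?_
    have hj' := Finset.mem_erase.1 hj
    rw [abs_mul]
    have h1 := hCb j hj'.2 x
    have h2 : |μ j - μ j₀| * |v j x| ≤ |μ j - μ j₀| * C j :=
      mul_le_mul_of_nonneg_left h1 (abs_nonneg _)
    have h3 := hC j
    have h4 := hC' j
    simp only [w]
    nlinarith [abs_nonneg (μ j - μ j₀)]
  have h0 : ∀ x, |h x - v j₀ x| ≤ η m := by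
    intro x
    have e : h x - v j₀ x = ∑ j ∈ s.erase j₀, r j ^ m * v j x := by
      simp only [h]
      rw [← Finset.add_sum_erase s _ hj₀, hr0]
      simp
    rw [e]
    refine hbd _ fun j hj => ?_
    have hj' := Finset.mem_erase.1 hj
    have h1 := hCb j hj'.2 x
    have h3 := hC j
    have h4 := hC' j
    simp only [w]
    nlinarith [abs_nonneg (μ j - μ j₀), mul_nonneg h3 (abs_nonneg (μ j - μ j₀))]
  have h1 : ∀ x, |h' x - v' j₀ x| ≤ η m := by
    intro x
    have e : h' x - v' j₀ x = ∑ j ∈ s.erase j₀, r j ^ m * v' j x := by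
      simp only [h']
      rw [← Finset.add_sum_erase s _ hj₀, hr0]
      simp
    rw [e]
    refine hbd _ fun j hj => ?_
    have hj' := Finset.mem_erase.1 hj
    have h1 := hCb' j hj'.2 x
    have h3 := hC j
    have h4 := hC' j
    simp only [w]
    nlinarith [abs_nonneg (μ j - μ j₀), mul_nonneg h3 (abs_nonneg (μ j - μ j₀))]
  obtain ⟨ξ, hξ, hξ0⟩ := exists_hasDerivAt_eq_zero hpq
    (continuous_iff_continuousAt.2 fun x => (hh x).continuousAt).continuousOn
    (hp0.trans hq0.symm) (fun x _ => hh x)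
  have hb : |h ξ| ≤ η m * K := barrier_abs hh hh' (Q := fun x => a x - μ j₀) hMa hωM hω0 hθ hpq
    (by
      have : ω * (q - p) ≤ ω * ℓ := mul_le_mul_of_nonneg_left hcon hω0.le
      rw [hθdef]; linarith) hQ hp0 hq0 ⟨hξ.1.le, hξ.2.le⟩
  have h2 : |v j₀ ξ| ≤ η m * K + η m := by
    have := abs_sub_abs_le_abs_sub (v j₀ ξ) (h ξ)
    have h3 := h0 ξ
    rw [abs_sub_comm] at h3
    linarith
  have h3 : |v' j₀ ξ| ≤ η m := by
    have := h1 ξ
    rwa [hξ0, zero_sub, abs_neg] at this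
  have h4 := hclow ξ
  have h5 : v j₀ ξ ^ 2 ≤ (η m * K + η m) ^ 2 := by
    rw [← sq_abs (v j₀ ξ)]; exact pow_le_pow_left₀ (abs_nonneg _) h2 2
  have h6 : v' j₀ ξ ^ 2 ≤ η m ^ 2 := by
    rw [← sq_abs (v' j₀ ξ)]; exact pow_le_pow_left₀ (abs_nonneg _) h3 2
  linarith

/-- the shifted copies of a finite set in one period -/
theorem exists_shifts (hL : 0 < L) (Z : Finset ℝ) (hZ : ∀ z ∈ Z, z ∈ Ico 0 L) (n : ℕ) :
    ∃ S : Finset ℝ, S.card = n * Z.card ∧
      ∀ x ∈ S, ∃ i : ℕ, i < n ∧ ∃ z ∈ Z, x = z + i * L := by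
  refine ⟨(Finset.range n ×ˢ Z).image (fun p => p.2 + p.1 * L), ?_, ?_⟩
  · rw [Finset.card_image_of_injOn, Finset.card_product, Finset.card_range]
    rintro ⟨i, z⟩ hi ⟨j, w⟩ hj h
    simp only [Finset.coe_product, Set.mem_prod, Finset.mem_coe, Finset.mem_range] at hi hj
    simp only at h
    have hz := hZ z hi.2
    have hw := hZ w hj.2
    have key : (i : ℝ) = j := by
      by_contra hne
      rcases lt_or_gt_of_ne (fun h' => hne (by exact_mod_cast congrArg (fun n : ℕ => (n : ℝ)) h') :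
        i ≠ j) with hlt | hlt
      · have h1 : (i : ℝ) + 1 ≤ j := by exact_mod_cast hlt
        nlinarith [hz.1, hz.2, hw.1, hw.2]
      · have h1 : (j : ℝ) + 1 ≤ i := by exact_mod_cast hlt
        nlinarith [hz.1, hz.2, hw.1, hw.2]
    have hij : i = j := by exact_mod_cast key
    subst hij
    simp only [Prod.mk.injEq, true_and]
    linarith
  · intro x hx
    rw [Finset.mem_image] at hx
    obtain ⟨⟨i, z⟩, hi, rfl⟩ := hx
    rw [Finset.mem_product, Finset.mem_range] at hi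
    exact ⟨i, hi.1, z, hi.2, rfl⟩

/-- the number of simple zeros in a period -/
theorem card_simple_zeros_le (hL : 0 < L) (hM : 0 < M)
    (ha : Continuous a) (haper : Function.Periodic a L)
    (hv : ∀ j ∈ s, ∀ x, HasDerivAt (v j) (v' j x) x)
    (hv' : ∀ j ∈ s, ∀ x, HasDerivAt (v' j) ((μ j - a x) * v j x) x)
    (hper : ∀ j ∈ s, Function.Periodic (v j) L) (hper' : ∀ j ∈ s, Function.Periodic (v' j) L)
    {j₀ : ι} (hj₀ : j₀ ∈ s) (hne : ∃ x, v j₀ x ≠ 0) (hmin : ∀ j ∈ s, j ≠ j₀ → μ j₀ < μ j)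
    (hMa : ∀ x, a x - μ j₀ ≤ M) {Z : Finset ℝ} (hZ : ∀ z ∈ Z, z ∈ Ico 0 L)
    (hZ0 : ∀ z ∈ Z, ∑ j ∈ s, v j z = 0) (hZ1 : ∀ z ∈ Z, ∑ j ∈ s, v' j z ≠ 0) :
    (Z.card : ℝ) * Real.pi ≤ L * √M := by
  -- the constant `κ`
  set κ := 1 + |M + μ j₀| + ∑ j ∈ s, |μ j| with hκdef
  have hsum0 : 0 ≤ ∑ j ∈ s, |μ j| := Finset.sum_nonneg fun j _ => abs_nonneg _
  have hκa : ∀ x, a x < κ := by
    intro x
    have h1 := hMa x
    have h2 := le_abs_self (M + μ j₀)
    rw [hκdef]; linarith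
  have hκμ : ∀ j ∈ s, μ j < κ := by
    intro j hj
    have h1 : |μ j| ≤ ∑ j ∈ s, |μ j| :=
      Finset.single_le_sum (f := fun j => |μ j|) (fun i _ => abs_nonneg _) hj
    have h2 := le_abs_self (μ j)
    have h3 := abs_nonneg (M + μ j₀)
    rw [hκdef]; linarith
  -- the bound for every `ℓ`
  have main : ∀ ℓ : ℝ, 0 < ℓ → ℓ * √M < Real.pi → (Z.card : ℝ) * ℓ ≤ L := by
    intro ℓ hℓ hℓM
    rcases Z.eq_empty_or_nonempty with rfl | hZne
    · simpa using hL.le
    obtain ⟨m, hgap⟩ := exists_gap hL hM ha haper hv hv' hper hper' hj₀ hne hmin hMa hκμ hℓ hℓM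
    have hbound : ∀ n : ℕ, ((n : ℝ) * Z.card - 2 * m - 1) * ℓ ≤ n * L + 1 := by
      intro n
      by_cases hn : n * Z.card ≤ 2 * m + 1
      · have h1 : (n : ℝ) * Z.card ≤ 2 * m + 1 := by exact_mod_cast hn
        have h2 : ((n : ℝ) * Z.card - 2 * m - 1) * ℓ ≤ 0 :=
          mul_nonpos_of_nonpos_of_nonneg (by linarith) hℓ.le
        have h3 : 0 ≤ (n : ℝ) * L := by positivity
        linarith
      · push Not at hn
        obtain ⟨S, hScard, hS⟩ := exists_shifts hL Z hZ n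
        have hSne : S.Nonempty := by
          rw [← Finset.card_pos, hScard]; omega
        have hzero : ∀ x ∈ S, (-1 : ℝ) < x ∧ (∑ j ∈ s, v j x) = 0 ∧ (∑ j ∈ s, v' j x) ≠ 0 := by
          intro x hx
          obtain ⟨i, hi, z, hz, rfl⟩ := hS x hx
          have hz' := hZ z hz
          have hiL : (0 : ℝ) ≤ (i : ℝ) * L := by positivity
          refine ⟨by linarith [hz'.1], ?_, ?_⟩
          · rw [← hZ0 z hz]
            exact Finset.sum_congr rfl fun j hj => (hper j hj).nat_mul i z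
          · have : (∑ j ∈ s, v' j (z + i * L)) = ∑ j ∈ s, v' j z :=
              Finset.sum_congr rfl fun j hj => (hper' j hj).nat_mul i z
            rw [this]; exact hZ1 z hz
        have hlt : ∀ x ∈ S, x < n * L := by
          intro x hx
          obtain ⟨i, hi, z, hz, rfl⟩ := hS x hx
          have hz' := hZ z hz
          have h1 : (i : ℝ) + 1 ≤ n := by exact_mod_cast hi
          nlinarith [hz'.2]
        obtain ⟨y, hy, halt⟩ := alt_of_simple (f := fun x => ∑ j ∈ s, v j x)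
          (f' := fun x => ∑ j ∈ s, v' j x)
          (fun x => HasDerivAt.fun_sum fun j hj => hv j hj x) (A := -1) S hzero hSne (n * L) hlt
        rw [hScard] at halt
        obtain ⟨k, hk⟩ : ∃ k, n * Z.card = (k + 1) + 2 * m := ⟨n * Z.card - 2 * m - 1, by omega⟩
        rw [hk] at halt
        obtain ⟨y', hy', halt'⟩ := alt_iterate hκa hv hv' m (k + 1) y halt
        have hcont : Continuous fun x => ∑ j ∈ s, (μ j - κ) ^ m * v j x :=
          continuous_iff_continuousAt.2 fun x =>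
            (HasDerivAt.fun_sum fun j hj => (hv j hj x).const_mul _).continuousAt
        obtain ⟨z, hz1, hz2, hz3⟩ := AltTo.length hcont hgap halt'
        have hk' : (n : ℝ) * Z.card - 2 * m - 1 = k := by
          have : ((n * Z.card : ℕ) : ℝ) = ((k + 1) + 2 * m : ℕ) := by rw [hk]
          push_cast at this
          linarith
        rw [hk']
        linarith
    by_contra hcon
    push Not at hcon
    obtain ⟨n, hn⟩ := exists_nat_gt ((1 + (2 * m + 1) * ℓ) / (Z.card * ℓ - L))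
    rw [div_lt_iff₀ (by linarith)] at hn
    have := hbound n
    nlinarith
  have hsM : 0 < √M := Real.sqrt_pos.2 hM
  by_contra hcon
  push Not at hcon
  have hZpos : (0 : ℝ) < Z.card := by
    rcases Nat.eq_zero_or_pos Z.card with h | h
    · rw [h] at hcon
      simp only [Nat.cast_zero, zero_mul] at hcon
      have := mul_pos hL hsM
      linarith
    · exact_mod_cast h
  -- choose `ℓ` between `L / card` and `π / √M`
  have h1 : L / Z.card < Real.pi / √M := by
    rw [div_lt_div_iff₀ hZpos hsM]; linarith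
  obtain ⟨ℓ, hℓ1, hℓ2⟩ := exists_between h1
  have hℓ0 : 0 < ℓ := (div_pos hL hZpos).trans hℓ1
  have h2 := main ℓ hℓ0 (by rwa [lt_div_iff₀ hsM] at hℓ2)
  rw [div_lt_iff₀ hZpos] at hℓ1
  linarith

end

end TH266.LT
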