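import Mathlib
import Pool.Agent.TH266.LT.FinDim
import Pool.Agent.TH266.LT.Sturm3

/-!
# Counting zeros on horizontal and vertical lines; unique continuation
-/

set_option autoImplicit false

open Set Filter Topology MeasureTheory intervalIntegral
open scoped ContDiff

namespace TH266.LT

variable {D : Dat} {F G : ℝ × ℝ → ℝ}

theorem Dat.dxdx_of_eig {μ : ℝ} (h : D.P F = μ • F) (p : ℝ × ℝ) :
    dx (dx F) p = (μ - D.a p.1) * F p := by
  have := congrFun h p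
  simp only [Dat.P, Pi.add_apply, Pi.mul_apply, fstF, Pi.smul_apply, smul_eq_mul] at this
  linarith

theorem Dat.dydy_of_eig {μ : ℝ} (hF : F ∈ D.E) (h : D.P F = μ • F) (p : ℝ × ℝ) :
    dy (dy F) p = (-μ - D.b p.2) * F p := by
  have h1 := congrFun (Dat.E_pde hF) p
  have h2 := congrFun h p
  simp only [Dat.Q, Pi.add_apply, Pi.mul_apply, sndF, Pi.smul_apply, smul_eq_mul,
    Pi.zero_apply] at h1 h2
  rw [h2] at h1
  linarith

/-- a nonzero eigenfunction has `μ ≥ - max b` -/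
theorem Dat.eig_lower {μ : ℝ} (hF : F ∈ D.E) (h : D.P F = μ • F) {x₁ y₁ : ℝ}
    (hne : F (x₁, y₁) ≠ 0) : ∃ t, 0 ≤ μ + D.b t := by
  have sF := Dat.E_sm hF
  have hper : Function.Periodic (fun y => F (x₁, y)) D.L₂ := fun y => Dat.E_y hF x₁ y
  have hcont : Continuous fun y => F (x₁, y) := cy sF.continuous x₁
  wlog hpos : 0 < F (x₁, y₁) generalizing F
  · have hneg : F (x₁, y₁) < 0 := lt_of_le_of_ne (not_lt.1 hpos) hne
    refine this (F := (-1 : ℝ) • F) (D.E.smul_mem _ hF) ?_ ?_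
      (Dat.E_sm (D.E.smul_mem (-1 : ℝ) hF)) ?_ ?_ ?_
    · rw [Dat.P_smul _ sF, h, smul_comm]
    · simpa using hne
    · intro y
      simp only [Pi.smul_apply, smul_eq_mul]
      have := hper y
      simp only at this
      rw [this]
    · simp only [Pi.smul_apply, smul_eq_mul]
      exact continuous_const.mul hcont
    · simpa using hneg
  obtain ⟨m, -, hmax⟩ := (isCompact_Icc (a := (0 : ℝ)) (b := D.L₂)).exists_isMaxOn
    (nonempty_Icc.2 D.hL₂.le) hcont.continuousOn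
  have hmax' : ∀ y, F (x₁, y) ≤ F (x₁, m) := by
    intro y
    obtain ⟨z, hz, hyz⟩ := hper.exists_mem_Ico₀ D.hL₂ y
    rw [hyz]
    exact hmax ⟨hz.1, hz.2.le⟩
  have h2 : dy (dy F) (x₁, m) ≤ 0 := second_nonpos (f := fun y => F (x₁, y))
    (f' := fun y => dy F (x₁, y)) (f'' := fun y => dy (dy F) (x₁, y))
    (fun y => sF.hasDerivAt_y x₁ y) (fun y => sF.dy.hasDerivAt_y x₁ y)
    (Filter.Eventually.of_forall hmax')
  rw [Dat.dydy_of_eig hF h] at h2
  simp only at h2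
  have h3 : 0 < F (x₁, m) := hpos.trans_le (hmax' y₁)
  refine ⟨m, ?_⟩
  by_contra hcon
  push Not at hcon
  have : 0 < (-μ - D.b m) * F (x₁, m) := mul_pos (by linarith) h3
  linarith

/-- simple zeros on horizontal lines -/
theorem Dat.card_x (hF : F ∈ D.E) {M : ℝ} (hM : 0 < M) (hpot : ∀ x y, D.a x + D.b y ≤ M) (y : ℝ)
    {Z : Finset ℝ} (hZ : ∀ z ∈ Z, z ∈ Ico 0 D.L₁) (hZ0 : ∀ z ∈ Z, F (z, y) = 0)
    (hZ1 : ∀ z ∈ Z, dx F (z, y) ≠ 0) : (Z.card : ℝ) * Real.pi ≤ D.L₁ * √M := by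
  classical
  obtain ⟨s, g, hg, hsum⟩ := Dat.decomp hF
  let s' := s.filter fun μ => ∃ x, g μ (x, y) ≠ 0
  have hval : ∀ x, F (x, y) = ∑ μ ∈ s', g μ (x, y) := by
    intro x
    rw [hsum, Finset.sum_apply, Finset.sum_filter]
    refine Finset.sum_congr rfl fun μ _ => ?_
    split_ifs with h
    · rfl
    · push Not at h; exact h x
  have hsm : ∀ μ, Sm (g μ) := fun μ => Dat.E_sm (hg μ).1
  have hderiv : ∀ x, dx F (x, y) = ∑ μ ∈ s', dx (g μ) (x, y) := by
    intro x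
    have h1 : HasDerivAt (fun t => F (t, y)) (∑ μ ∈ s', dx (g μ) (x, y)) x := by
      have : (fun t => F (t, y)) = fun t => ∑ μ ∈ s', g μ (t, y) := funext hval
      rw [this]
      exact HasDerivAt.fun_sum fun μ _ => (hsm μ).hasDerivAt_x x y
    exact ((Dat.E_sm hF).hasDerivAt_x x y).unique h1
  rcases s'.eq_empty_or_nonempty with he | hne
  · rcases Z.eq_empty_or_nonempty with rfl | ⟨z, hz⟩
    · simp only [Finset.card_empty, Nat.cast_zero, zero_mul]
      have := D.hL₁; positivity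
    · exfalso
      apply hZ1 z hz
      rw [hderiv, he]; simp
  · set μ₀ := s'.min' hne with hμ₀
    have hmem : μ₀ ∈ s' := Finset.min'_mem _ _
    obtain ⟨x₁, hx₁⟩ := (Finset.mem_filter.1 hmem).2
    obtain ⟨t, ht⟩ := Dat.eig_lower (hg μ₀).1 (hg μ₀).2 hx₁
    refine card_simple_zeros_le (s := s') (v := fun μ x => g μ (x, y))
      (v' := fun μ x => dx (g μ) (x, y)) (μ := fun μ => μ) (a := D.a) D.hL₁ hM
      D.ha.continuous D.pa (fun μ _ x => (hsm μ).hasDerivAt_x x y) (fun μ _ x => ?_)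
      (fun μ _ x => Dat.E_x (hg μ).1 x y) (fun μ _ x => dx_per₁ (hsm μ) (Dat.E_x (hg μ).1) x y)
      hmem ⟨x₁, hx₁⟩ (fun μ hμ hne' => ?_) (fun x => ?_) hZ (fun z hz => ?_) (fun z hz => ?_)
    · have := (hsm μ).dx.hasDerivAt_x x y
      rwa [Dat.dxdx_of_eig (hg μ).2] at this
    · exact lt_of_le_of_ne (Finset.min'_le _ _ hμ) (Ne.symm hne')
    · have := hpot x t
      linarith
    · rw [← hval]; exact hZ0 z hz
    · rw [← hderiv]; exact hZ1 z hz

/-- the data with the variables exchanged -/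
def Dat.swap (D : Dat) : Dat where
  L₁ := D.L₂
  L₂ := D.L₁
  a := D.b
  b := D.a
  hL₁ := D.hL₂
  hL₂ := D.hL₁
  ha := D.hb
  hb := D.ha
  pa := D.pb
  pb := D.pa

theorem sm_swap (h : Sm F) : Sm (F ∘ Prod.swap) := h.comp (contDiff_snd.prodMk contDiff_fst)

theorem dx_swap (h : Sm F) : dx (F ∘ Prod.swap) = dy F ∘ Prod.swap := by
  funext ⟨x, y⟩
  rw [dx_eq_deriv (sm_swap h)]
  exact (h.hasDerivAt_y y x).deriv

theorem dy_swap (h : Sm F) : dy (F ∘ Prod.swap) = dx F ∘ Prod.swap := by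
  funext ⟨x, y⟩
  rw [dy_eq_deriv (sm_swap h)]
  exact (h.hasDerivAt_x y x).deriv

theorem Dat.swap_mem (hF : F ∈ D.E) : F ∘ Prod.swap ∈ D.swap.E := by
  obtain ⟨h1, h2, h3, h4⟩ := hF
  refine ⟨sm_swap h1, fun x y => h3 y x, fun x y => h2 y x, ?_⟩
  unfold Dat.P Dat.Q
  rw [dx_swap h1, dx_swap h1.dy, dy_swap h1, dy_swap h1.dx]
  funext ⟨x, y⟩
  have := congrFun h4 (y, x)
  simp only [Dat.P, Dat.Q, Pi.add_apply, Pi.mul_apply, fstF, sndF, Pi.zero_apply] at this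
  simp only [Dat.swap, Pi.add_apply, Pi.mul_apply, fstF, sndF, Function.comp_apply,
    Prod.swap_prod_mk, Pi.zero_apply]
  linarith

/-- simple zeros on vertical lines -/
theorem Dat.card_y (hF : F ∈ D.E) {M : ℝ} (hM : 0 < M) (hpot : ∀ x y, D.a x + D.b y ≤ M) (x : ℝ)
    {Z : Finset ℝ} (hZ : ∀ z ∈ Z, z ∈ Ico 0 D.L₂) (hZ0 : ∀ z ∈ Z, F (x, z) = 0)
    (hZ1 : ∀ z ∈ Z, dy F (x, z) ≠ 0) : (Z.card : ℝ) * Real.pi ≤ D.L₂ * √M := by
  refine Dat.card_x (D := D.swap) (Dat.swap_mem hF) hM (fun x y => ?_) x hZ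
    (fun z hz => hZ0 z hz) (fun z hz => ?_)
  · have := hpot y x
    simp only [Dat.swap]; linarith
  · rw [dx_swap (Dat.E_sm hF)]; exact hZ1 z hz

/-! ### vanishing to order `k` -/

/-- all partial derivatives of order at most `k` vanish at `p` -/
def Van : ℕ → (ℝ × ℝ → ℝ) → ℝ × ℝ → Prop
  | 0, F, p => F p = 0
  | k + 1, F, p => F p = 0 ∧ Van k (dx F) p ∧ Van k (dy F) p

theorem Van.pred : ∀ {k : ℕ} {F : ℝ × ℝ → ℝ} {p : ℝ × ℝ}, Van (k + 1) F p → Van k F p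
  | 0, _, _, h => h.1
  | _ + 1, _, _, ⟨h1, h2, h3⟩ => ⟨h1, h2.pred, h3.pred⟩

theorem Van.mono {p : ℝ × ℝ} {j k : ℕ} (hjk : j ≤ k) (h : Van k F p) : Van j F p := by
  induction k, hjk using Nat.le_induction with
  | base => exact h
  | succ n _ ih => exact ih h.pred

theorem Van.val {p : ℝ × ℝ} {k : ℕ} (h : Van k F p) : F p = 0 := by
  cases k with
  | zero => exact h
  | succ k => exact h.1

theorem Van.add : ∀ {k : ℕ} {F G : ℝ × ℝ → ℝ} {p : ℝ × ℝ}, Sm F → Sm G → Van k F p →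
    Van k G p → Van k (F + G) p
  | 0, _, _, _, _, _, h1, h2 => by
    show _ + _ = (0 : ℝ)
    rw [show _ = (0 : ℝ) from h1, show _ = (0 : ℝ) from h2, add_zero]
  | _ + 1, F, G, p, hF, hG, ⟨h1, h2, h3⟩, ⟨g1, g2, g3⟩ => by
    refine ⟨?_, ?_, ?_⟩
    · show F p + G p = 0
      rw [h1, g1, add_zero]
    · rw [dx_add hF hG]; exact Van.add hF.dx hG.dx h2 g2
    · rw [dy_add hF hG]; exact Van.add hF.dy hG.dy h3 g3

theorem Van.mul : ∀ {k : ℕ} {F G : ℝ × ℝ → ℝ} {p : ℝ × ℝ}, Sm F → Sm G → Van k F p →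
    Van k (G * F) p
  | 0, F, G, p, _, _, h1 => by
    show G p * F p = 0
    rw [show F p = (0 : ℝ) from h1, mul_zero]
  | k + 1, F, G, p, hF, hG, h => by
    obtain ⟨h1, h2, h3⟩ := h
    refine ⟨?_, ?_, ?_⟩
    · show G p * F p = 0
      rw [h1, mul_zero]
    · rw [dx_mul hG hF]
      refine Van.add (sm_mul hG hF.dx) (sm_mul hF hG.dx) (Van.mul hF.dx hG h2) ?_
      rw [mul_comm]
      exact Van.mul hF hG.dx (Van.pred ⟨h1, h2, h3⟩)
    · rw [dy_mul hG hF]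
      refine Van.add (sm_mul hG hF.dy) (sm_mul hF hG.dy) (Van.mul hF.dy hG h3) ?_
      rw [mul_comm]
      exact Van.mul hF hG.dy (Van.pred ⟨h1, h2, h3⟩)

theorem van_zero (k : ℕ) (p : ℝ × ℝ) : Van k 0 p := by
  induction k with
  | zero => rfl
  | succ k ih => exact ⟨rfl, by rw [dx_zero]; exact ih, by rw [dy_zero]; exact ih⟩

theorem Van.smul {k : ℕ} {p : ℝ × ℝ} (c : ℝ) (hF : Sm F) (h : Van k F p) : Van k (c • F) p := by
  have : c • F = (fun _ => c) * F := by funext q; simp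
  rw [this]
  exact Van.mul hF contDiff_const h

theorem Dat.van_P {k : ℕ} {p : ℝ × ℝ} (hF : Sm F) (h : Van (k + 2) F p) : Van k (D.P F) p := by
  unfold Dat.P
  exact Van.add hF.dx.dx (sm_mul (sm_fstF D.ha) hF) h.2.1.2.1
    (Van.mul hF (sm_fstF D.ha) (h.mono (by omega)))

/-- zero Cauchy data for a joint eigenfunction -/
theorem Dat.eig_zero {μ : ℝ} (hF : F ∈ D.E) (h : D.P F = μ • F) {p : ℝ × ℝ} (hv : Van 2 F p) :
    F = 0 := by
  have sF := Dat.E_sm hF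
  obtain ⟨x₀, y₀⟩ := p
  obtain ⟨KA, hKA, hKA'⟩ := periodic_bdd (f := fun x => μ - D.a x)
    (continuous_const.sub D.ha.continuous) D.hL₁ (fun x => by simp only [D.pa x])
  obtain ⟨KB, hKB, hKB'⟩ := periodic_bdd (f := fun y => -μ - D.b y)
    (continuous_const.sub D.hb.continuous) D.hL₂ (fun y => by simp only [D.pb y])
  have h1 : ∀ x, F (x, y₀) = 0 := fun x =>
    (ode_unique (v := fun x => F (x, y₀)) (v' := fun x => dx F (x, y₀)) (a := D.a) (μ := μ)
      (fun x => sF.hasDerivAt_x x y₀)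
      (fun x => by
        have := sF.dx.hasDerivAt_x x y₀
        rwa [Dat.dxdx_of_eig h] at this) hKA' (x₀ := x₀) hv.1 hv.2.1.val x).1
  have hdy : D.P (dy F) = μ • dy F := by
    rw [← Dat.dy_P sF, h, dy_smul _ sF]
  have h2 : ∀ x, dy F (x, y₀) = 0 := fun x =>
    (ode_unique (v := fun x => dy F (x, y₀)) (v' := fun x => dx (dy F) (x, y₀)) (a := D.a)
      (μ := μ) (fun x => sF.dy.hasDerivAt_x x y₀)
      (fun x => by
        have := sF.dy.dx.hasDerivAt_x x y₀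
        rwa [Dat.dxdx_of_eig hdy] at this) hKA' (x₀ := x₀) hv.2.2.val hv.2.2.2.1.val x).1
  funext ⟨x, y⟩
  exact (ode_unique (v := fun y => F (x, y)) (v' := fun y => dy F (x, y)) (a := D.b)
    (μ := -μ) (fun y => sF.hasDerivAt_y x y)
    (fun y => by
      have := sF.dy.hasDerivAt_y x y
      rwa [Dat.dydy_of_eig hF h] at this) hKB' (x₀ := y₀) (h1 x) (h2 x) y).1

/-- strong unique continuation -/
theorem Dat.unique_continuation (hF : F ∈ D.E) {p : ℝ × ℝ} (hv : ∀ k, Van k F p) : F = 0 := by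
  let W : Submodule ℝ D.E :=
    { carrier := {G | ∀ k, Van k G.1 p}
      add_mem' := fun {G H} hG hH k => Van.add (Dat.E_sm G.2) (Dat.E_sm H.2) (hG k) (hH k)
      zero_mem' := fun k => van_zero k p
      smul_mem' := fun c G hG k => Van.smul c (Dat.E_sm G.2) (hG k) }
  have hTW : ∀ G ∈ W, D.T G ∈ W := fun G hG k => Dat.van_P (Dat.E_sm G.2) (hG (k + 2))
  let TW : Module.End ℝ W := D.T.restrict hTW
  have htop :=
    iSup_eigenspace_eq_top (V := W) (fun F G : W => D.ip F.1.1 G.1.1)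
      (fun u v w => Dat.ip_add (Dat.E_sm u.1.2) (Dat.E_sm v.1.2) (Dat.E_sm w.1.2))
      (fun c u v => Dat.ip_smul c) (fun u v => Dat.ip_comm) (fun u => Dat.ip_self_nonneg)
      (fun u hu => Subtype.ext (Subtype.ext (Dat.ip_self_zero u.1.2 hu))) TW
      (fun u v => Dat.ip_P u.1.2 v.1.2)
  let u₀ : W := ⟨⟨F, hF⟩, hv⟩
  obtain ⟨s, g, hg, hsum⟩ := exists_decomp (V := W) TW htop u₀
  have hz : ∀ μ, g μ = 0 := by
    intro μ
    have h1 : D.P (g μ).1.1 = μ • (g μ).1.1 :=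
      congrArg (fun z : W => z.1.1) (hg μ)
    exact Subtype.ext (Subtype.ext (Dat.eig_zero (g μ).1.2 h1 ((g μ).2 2)))
  have := congrArg (fun z : W => z.1.1) hsum
  simp only [hz, Finset.sum_const_zero] at this
  exact this

end TH266.LT
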