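import Mathlib
import Pool.Agent.TH266.LT.Slice

/-!
# The singular points of the nodal set form a countable set
-/

set_option autoImplicit false

open Set Filter Topology
open scoped ContDiff

namespace TH266.LT

variable {D : Dat} {F G : ℝ × ℝ → ℝ}

theorem Sm.iter_dx (h : Sm F) (i : ℕ) : Sm (TH266.LT.dx^[i] F) := by
  induction i generalizing F with
  | zero => exact h
  | succ i ih => exact ih h.dx

theorem Sm.iter_dy (h : Sm F) (i : ℕ) : Sm (TH266.LT.dy^[i] F) := by
  induction i generalizing F with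
  | zero => exact h
  | succ i ih => exact ih h.dy

theorem dy_iter_dx (h : Sm F) (i : ℕ) : dy (dx^[i] F) = dx^[i] (dy F) := by
  induction i generalizing F with
  | zero => rfl
  | succ i ih =>
    rw [Function.iterate_succ_apply, ih h.dx, Function.iterate_succ_apply, dx_dy h]

theorem dx_iter_dy (h : Sm F) (i : ℕ) : dx (dy^[i] F) = dy^[i] (dx F) := by
  induction i generalizing F with
  | zero => rfl
  | succ i ih =>
    rw [Function.iterate_succ_apply, ih h.dy, Function.iterate_succ_apply, dx_dy h]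

/-- iterated partial derivatives -/
noncomputable def DD (i j : ℕ) (F : ℝ × ℝ → ℝ) : ℝ × ℝ → ℝ := dx^[i] (dy^[j] F)

theorem DD_succ_left (h : Sm F) (i j : ℕ) : DD (i + 1) j F = DD i j (dx F) := by
  unfold DD
  rw [Function.iterate_succ_apply, dx_iter_dy h]

theorem DD_succ_right (i j : ℕ) : DD i (j + 1) F = DD i j (dy F) := by
  unfold DD
  rw [Function.iterate_succ_apply]

theorem sm_DD (h : Sm F) (i j : ℕ) : Sm (DD i j F) := (h.iter_dy j).iter_dx i

theorem dx_DD (_h : Sm F) (i j : ℕ) : dx (DD i j F) = DD (i + 1) j F := by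
  unfold DD
  rw [Function.iterate_succ_apply']

theorem dy_DD (h : Sm F) (i j : ℕ) : dy (DD i j F) = DD i (j + 1) F := by
  unfold DD
  rw [dy_iter_dx (h.iter_dy j), Function.iterate_succ_apply' dy]

theorem van_iff {k : ℕ} {p : ℝ × ℝ} (h : Sm F) :
    Van k F p ↔ ∀ i j, i + j ≤ k → DD i j F p = 0 := by
  induction k generalizing F with
  | zero =>
    constructor
    · intro hv i j hij
      obtain rfl : i = 0 := by omega
      obtain rfl : j = 0 := by omega
      exact hv
    · intro hv; exact hv 0 0 le_rfl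
  | succ k ih =>
    constructor
    · rintro ⟨h1, h2, h3⟩ i j hij
      rcases i with _ | i
      · rcases j with _ | j
        · exact h1
        · rw [DD_succ_right]
          exact (ih h.dy).1 h3 0 j (by omega)
      · rw [DD_succ_left h]
        exact (ih h.dx).1 h2 i j (by omega)
    · intro hv
      refine ⟨hv 0 0 (by omega), (ih h.dx).2 fun i j hij => ?_, (ih h.dy).2 fun i j hij => ?_⟩
      · rw [← DD_succ_left h]; exact hv _ _ (by omega)
      · rw [← DD_succ_right]; exact hv _ _ (by omega)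

theorem DD_add (hF : Sm F) (hG : Sm G) (i j : ℕ) : DD i j (F + G) = DD i j F + DD i j G := by
  induction i generalizing F G with
  | zero =>
    induction j generalizing F G with
    | zero => rfl
    | succ j ih => rw [DD_succ_right, DD_succ_right, DD_succ_right, dy_add hF hG, ih hF.dy hG.dy]
  | succ i ih =>
    rw [DD_succ_left (sm_add hF hG), DD_succ_left hF, DD_succ_left hG, dx_add hF hG,
      ih hF.dx hG.dx]

/-- the relation between the derivatives of order `n + 2` at a point of vanishing order `n + 2` -/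
theorem Dat.relation (hF : F ∈ D.E) {n : ℕ} {p : ℝ × ℝ} (hv : Van (n + 1) F p) (i j : ℕ)
    (hij : i + j ≤ n) : DD (i + 2) j F p + DD i (j + 2) F p = 0 := by
  have sF := Dat.E_sm hF
  have h1 : dx (dx F) + dy (dy F) = -((fstF D.a + sndF D.b) * F) := by
    have := Dat.E_pde hF
    unfold Dat.P Dat.Q at this
    rw [eq_neg_iff_add_eq_zero, ← this]; ring
  have h2 : Van (n + 1) (-((fstF D.a + sndF D.b) * F)) p := by
    have e : -((fstF D.a + sndF D.b) * F) = ((-1 : ℝ) • (fstF D.a + sndF D.b)) * F := by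
      funext q; simp; ring
    rw [e]
    exact Van.mul sF ((sm_add (sm_fstF D.ha) (sm_sndF D.hb)).const_smul (-1 : ℝ)) hv
  rw [← h1] at h2
  have h3 := (van_iff (sm_add sF.dx.dx sF.dy.dy)).1 h2 i j (by omega)
  rw [DD_add sF.dx.dx sF.dy.dy, ← DD_succ_left sF.dx, ← DD_succ_left sF, ← DD_succ_right,
    ← DD_succ_right] at h3
  exact h3

/-- points where `F` vanishes exactly to order `n + 2` are isolated -/
theorem Dat.isolated (hF : F ∈ D.E) {n : ℕ} {p : ℝ × ℝ} (hv : Van (n + 1) F p)
    (hnv : ¬ Van (n + 2) F p) : ∀ᶠ q in 𝓝[≠] p, ¬ Van (n + 1) F q := by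
  have sF := Dat.E_sm hF
  set A := DD (n + 2) 0 F p with hA
  set B := DD (n + 1) 1 F p with hB
  have hAB : ¬ (A = 0 ∧ B = 0) := by
    rintro ⟨hA0, hB0⟩
    apply hnv
    rw [van_iff sF]
    intro i j hij
    rcases Nat.lt_or_ge (i + j) (n + 2) with h | h
    · exact (van_iff sF).1 hv i j (by omega)
    · have key : ∀ j i, i + j = n + 2 → DD i j F p = 0 := by
        intro j
        induction j using Nat.strong_induction_on with
        | _ j ih =>
          intro i hij
          rcases j with _ | _ | j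
          · obtain rfl : i = n + 2 := by omega
            exact hA0
          · obtain rfl : i = n + 1 := by omega
            exact hB0
          · have h1 := Dat.relation hF hv i j (by omega)
            rw [ih j (by omega) (i + 2) (by omega), zero_add] at h1
            exact h1
      exact key j i (by omega)
  let W : ℝ × ℝ → ℝ × ℝ := fun q => (DD (n + 1) 0 F q, DD n 1 F q)
  have hW1 : HasFDerivAt (DD (n + 1) 0 F) (fderiv ℝ (DD (n + 1) 0 F) p) p :=
    ((sm_DD sF _ _).diff p).hasFDerivAt
  have hW2 : HasFDerivAt (DD n 1 F) (fderiv ℝ (DD n 1 F) p) p :=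
    ((sm_DD sF _ _).diff p).hasFDerivAt
  have hW := hW1.prodMk hW2
  have e11 : fderiv ℝ (DD (n + 1) 0 F) p (1, 0) = A := by
    show dx (DD (n + 1) 0 F) p = A
    rw [dx_DD sF]
  have e12 : fderiv ℝ (DD (n + 1) 0 F) p (0, 1) = B := by
    show dy (DD (n + 1) 0 F) p = B
    rw [dy_DD sF]
  have e21 : fderiv ℝ (DD n 1 F) p (1, 0) = B := by
    show dx (DD n 1 F) p = B
    rw [dx_DD sF]
  have e22 : fderiv ℝ (DD n 1 F) p (0, 1) = -A := by
    show dy (DD n 1 F) p = -A
    rw [dy_DD sF]
    have := Dat.relation hF hv n 0 (by omega)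
    linarith
  have hlin : ∀ (L : ℝ × ℝ →L[ℝ] ℝ) (z : ℝ × ℝ), L z = z.1 * L (1, 0) + z.2 * L (0, 1) := by
    intro L z
    have : z = z.1 • ((1 : ℝ), (0 : ℝ)) + z.2 • ((0 : ℝ), (1 : ℝ)) := by
      ext <;> simp
    conv_lhs => rw [this]
    rw [map_add, map_smul, map_smul, smul_eq_mul, smul_eq_mul]
  have hR : 0 < A ^ 2 + B ^ 2 := by
    by_contra hcon
    apply hAB
    have h1 := sq_nonneg A
    have h2 := sq_nonneg B
    exact ⟨by nlinarith, by nlinarith⟩
  -- the derivative is bounded below
  set L := (fderiv ℝ (DD (n + 1) 0 F) p).prod (fderiv ℝ (DD n 1 F) p) with hL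
  have hLz : ∀ z : ℝ × ℝ, L z = (z.1 * A + z.2 * B, z.1 * B + z.2 * (-A)) := by
    intro z
    rw [hL]
    show (fderiv ℝ (DD (n + 1) 0 F) p z, fderiv ℝ (DD n 1 F) p z) = _
    rw [hlin (fderiv ℝ (DD (n + 1) 0 F) p) z, hlin (fderiv ℝ (DD n 1 F) p) z, e11, e12, e21, e22]
  have hanti : ∃ C, AntilipschitzWith C L := by
    refine ⟨Real.toNNReal ((|A| + |B|) / (A ^ 2 + B ^ 2)), ?_⟩
    refine ContinuousLinearMap.antilipschitz_of_bound L fun z => ?_
    rw [Real.coe_toNNReal _ (by positivity), div_mul_eq_mul_div, le_div_iff₀ hR]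
    rw [hLz z]
    set X := z.1 * A + z.2 * B with hX
    set Y := z.1 * B + z.2 * (-A) with hY
    rw [Prod.norm_def, Prod.norm_def]
    simp only [Real.norm_eq_abs]
    have e1 : z.1 * (A ^ 2 + B ^ 2) = A * X + B * Y := by rw [hX, hY]; ring
    have e2 : z.2 * (A ^ 2 + B ^ 2) = B * X - A * Y := by rw [hX, hY]; ring
    have m1 : |X| ≤ max |X| |Y| := le_max_left _ _
    have m2 : |Y| ≤ max |X| |Y| := le_max_right _ _
    have a1 : |z.1| * (A ^ 2 + B ^ 2) ≤ (|A| + |B|) * max |X| |Y| := by
      calc |z.1| * (A ^ 2 + B ^ 2) = |A * X + B * Y| := by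
            rw [← e1, abs_mul, abs_of_pos hR]
        _ ≤ |A * X| + |B * Y| := abs_add_le _ _
        _ = |A| * |X| + |B| * |Y| := by rw [abs_mul, abs_mul]
        _ ≤ |A| * max |X| |Y| + |B| * max |X| |Y| :=
            add_le_add (mul_le_mul_of_nonneg_left m1 (abs_nonneg _))
              (mul_le_mul_of_nonneg_left m2 (abs_nonneg _))
        _ = _ := by ring
    have a2 : |z.2| * (A ^ 2 + B ^ 2) ≤ (|A| + |B|) * max |X| |Y| := by
      calc |z.2| * (A ^ 2 + B ^ 2) = |B * X - A * Y| := by
            rw [← e2, abs_mul, abs_of_pos hR]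
        _ ≤ |B * X| + |A * Y| := by
            rw [sub_eq_add_neg]
            refine (abs_add_le _ _).trans ?_
            rw [abs_neg]
        _ = |B| * |X| + |A| * |Y| := by rw [abs_mul, abs_mul]
        _ ≤ |B| * max |X| |Y| + |A| * max |X| |Y| :=
            add_le_add (mul_le_mul_of_nonneg_left m1 (abs_nonneg _))
              (mul_le_mul_of_nonneg_left m2 (abs_nonneg _))
        _ = _ := by ring
    rcases max_cases |z.1| |z.2| with ⟨h, _⟩ | ⟨h, _⟩ <;> rw [h]
    · exact a1
    · exact a2
  have := HasFDerivAt.eventually_ne (c := ((0 : ℝ), (0 : ℝ))) hW hanti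
  filter_upwards [this] with q hq hvq
  apply hq
  rw [van_iff sF] at hvq
  have h1 := hvq (n + 1) 0 (by omega)
  have h2 := hvq n 1 (by omega)
  simp only [h1, h2]

/-- the singular zeros -/
def sing (F : ℝ × ℝ → ℝ) : Set (ℝ × ℝ) := {p | F p = 0 ∧ dx F p = 0 ∧ dy F p = 0}

theorem countable_of_isolated {S : Set (ℝ × ℝ)} (h : ∀ p ∈ S, ∀ᶠ q in 𝓝[≠] p, q ∉ S) :
    S.Countable := by
  have hd : DiscreteTopology S := by
    rw [discreteTopology_subtype_iff]
    intro p hp
    have := h p hp
    rw [← disjoint_iff, Filter.disjoint_principal_right]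
    exact this
  have : Countable S := TopologicalSpace.separableSpace_iff_countable.1 inferInstance
  exact Set.countable_coe_iff.1 this

theorem Dat.sing_countable (hF : F ∈ D.E) (hne : F ≠ 0) : (sing F).Countable := by
  have h1 : sing F ⊆ ⋃ n : ℕ, {p | Van (n + 1) F p ∧ ¬ Van (n + 2) F p} := by
    intro p hp
    have hex : ∃ k, ¬ Van k F p := by
      by_contra hcon
      push Not at hcon
      exact hne (Dat.unique_continuation hF hcon)
    classical
    have hm := Nat.find_spec hex
    set m := Nat.find hex with hmdef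
    have h0 : Van 1 F p := ⟨hp.1, hp.2.1, hp.2.2⟩
    have hm2 : 2 ≤ m := by
      by_contra hlt
      exact hm (h0.mono (by omega))
    obtain ⟨n, hn⟩ : ∃ n, m = n + 2 := ⟨m - 2, by omega⟩
    refine mem_iUnion.2 ⟨n, ?_, ?_⟩
    · by_contra hcon
      have := Nat.find_min' hex hcon
      omega
    · rw [← hn]; exact hm
  refine Set.Countable.mono h1 (Set.countable_iUnion fun n => ?_)
  refine countable_of_isolated fun p hp => ?_
  filter_upwards [Dat.isolated hF hp.1 hp.2] with q hq hq'
  exact hq hq'.1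

end TH266.LT
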