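import Mathlib
import Pool.Agent.TH266.LT.Sing

/-!
# The length of the nodal set
-/

set_option autoImplicit false

open Set Filter Topology MeasureTheory
open scoped ContDiff ENNReal NNReal

namespace TH266.LT

variable {D : Dat} {F G : ℝ × ℝ → ℝ}

/-- the Euclidean plane -/
abbrev E2 : Type := EuclideanSpace ℝ (Fin 2)

/-- two zeros close to a point where `|F_y| ≤ |F_x| ≠ 0` -/
theorem local_lip (hF : Sm F) {p : ℝ × ℝ} (h0 : dx F p ≠ 0) (h1 : |dy F p| ≤ |dx F p|) :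
    ∃ U : Set (ℝ × ℝ), IsOpen U ∧ p ∈ U ∧ ∀ q ∈ U, ∀ q' ∈ U, F q = 0 → F q' = 0 →
      |q.1 - q'.1| ≤ 6 / 5 * |q.2 - q'.2| := by
  have hs : HasStrictFDerivAt F (fderiv ℝ F p) p :=
    (hF.contDiffAt).hasStrictFDerivAt (by simp)
  rw [hasStrictFDerivAt_iff_isLittleO] at hs
  set α := dx F p with hα
  set β := dy F p with hβ
  have hα0 : 0 < |α| := abs_pos.2 h0
  have hev := hs.def (c := |α| / 11) (by positivity)
  rw [nhds_prod_eq, Filter.eventually_prod_iff] at hev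
  obtain ⟨pa, hpa, pb, hpb, hab⟩ := hev
  obtain ⟨U, hU, hUo, hpU⟩ := mem_nhds_iff.1 (hpa.and hpb)
  refine ⟨U, hUo, hpU, fun q hq q' hq' hq0 hq0' => ?_⟩
  have h2 := hab (hU hq).1 (hU hq').2
  simp only at h2
  rw [hq0, hq0', sub_zero, zero_sub, norm_neg] at h2
  have hlin : ∀ (L : ℝ × ℝ →L[ℝ] ℝ) (z : ℝ × ℝ), L z = z.1 * L (1, 0) + z.2 * L (0, 1) := by
    intro L z
    have : z = z.1 • ((1 : ℝ), (0 : ℝ)) + z.2 • ((0 : ℝ), (1 : ℝ)) := by
      ext <;> simp
    conv_lhs => rw [this]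
    rw [map_add, map_smul, map_smul, smul_eq_mul, smul_eq_mul]
  rw [hlin] at h2
  have e1 : fderiv ℝ F p (1, 0) = α := rfl
  have e2 : fderiv ℝ F p (0, 1) = β := rfl
  rw [e1, e2, Real.norm_eq_abs] at h2
  simp only [Prod.fst_sub, Prod.snd_sub] at h2
  set d1 := q.1 - q'.1 with hd1
  set d2 := q.2 - q'.2 with hd2
  have hnorm : ‖q - q'‖ ≤ |d1| + |d2| := by
    rw [Prod.norm_def]
    simp only [Prod.fst_sub, Prod.snd_sub, Real.norm_eq_abs]
    exact max_le (le_add_of_nonneg_right (abs_nonneg _)) (le_add_of_nonneg_left (abs_nonneg _))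
  have h3 : |d1 * α| - |d2 * β| ≤ |d1 * α + d2 * β| := by
    have := abs_sub_abs_le_abs_sub (d1 * α) (-(d2 * β))
    rw [abs_neg, sub_neg_eq_add] at this
    exact this
  rw [abs_mul, abs_mul] at h3
  have h4 : |d2| * |β| ≤ |d2| * |α| := mul_le_mul_of_nonneg_left h1 (abs_nonneg _)
  have h5 : |α| / 11 * ‖q - q'‖ ≤ |α| / 11 * (|d1| + |d2|) :=
    mul_le_mul_of_nonneg_left hnorm (by positivity)
  have h6 : |d1| * |α| ≤ |d2| * |α| + |α| / 11 * (|d1| + |d2|) := by linarith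
  have h7 : |α| * |d1| ≤ |α| * (6 / 5 * |d2|) := by nlinarith
  exact le_of_mul_le_mul_left h7 hα0

/-- the part of the nodal set, in a period cell, where `|F_y| ≤ |F_x| ≠ 0` -/
def half (D : Dat) (F : ℝ × ℝ → ℝ) : Set (ℝ × ℝ) :=
  {p | p.1 ∈ Ico 0 D.L₁ ∧ p.2 ∈ Ico 0 D.L₂ ∧ F p = 0 ∧ dx F p ≠ 0 ∧ |dy F p| ≤ |dx F p|}

theorem measurable_half (hF : Sm F) : MeasurableSet (half D F) := by
  have m1 : MeasurableSet {p : ℝ × ℝ | p.1 ∈ Ico 0 D.L₁} := measurable_fst measurableSet_Ico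
  have m2 : MeasurableSet {p : ℝ × ℝ | p.2 ∈ Ico 0 D.L₂} := measurable_snd measurableSet_Ico
  have m3 : MeasurableSet {p : ℝ × ℝ | F p = 0} :=
    (isClosed_eq hF.continuous continuous_const).measurableSet
  have m4 : MeasurableSet {p : ℝ × ℝ | dx F p ≠ 0} :=
    (isClosed_eq hF.dx.continuous continuous_const).measurableSet.compl
  have m5 : MeasurableSet {p : ℝ × ℝ | |dy F p| ≤ |dx F p|} :=
    (isClosed_le hF.dy.continuous.abs hF.dx.continuous.abs).measurableSet
  exact m1.inter (m2.inter (m3.inter (m4.inter m5)))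

/-- the length of a graph piece -/
theorem piece_le {φ : ℝ × ℝ → E2}
    (hφ : ∀ p q : ℝ × ℝ, |p.1 - q.1| ≤ 6 / 5 * |p.2 - q.2| →
      dist (φ p) (φ q) ≤ 157 / 100 * |p.2 - q.2|)
    {A : Set (ℝ × ℝ)} (hA : ∀ p ∈ A, ∀ q ∈ A, |p.1 - q.1| ≤ 6 / 5 * |p.2 - q.2|) :
    μH[1] (φ '' A) ≤ ENNReal.ofReal (157 / 100) * volume (Prod.snd '' A) := by
  classical
  choose! c hc using fun (t : ℝ) (ht : t ∈ Prod.snd '' A) => ht
  have himg : φ '' A ⊆ (fun t => φ (c t)) '' (Prod.snd '' A) := by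
    rintro _ ⟨p, hp, rfl⟩
    refine ⟨p.2, mem_image_of_mem _ hp, ?_⟩
    obtain ⟨h1, h2⟩ := hc p.2 (mem_image_of_mem _ hp)
    have h3 := hA _ h1 _ hp
    rw [h2, sub_self, abs_zero, mul_zero] at h3
    have h4 : (c p.2).1 = p.1 := by
      have := abs_nonpos_iff.1 h3
      linarith
    simp only
    rw [show c p.2 = p from Prod.ext h4 h2]
  have hlip : LipschitzOnWith (157 / 100) (fun t => φ (c t)) (Prod.snd '' A) := by
    refine LipschitzOnWith.of_dist_le_mul fun s hs t ht => ?_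
    obtain ⟨h1, h2⟩ := hc s hs
    obtain ⟨g1, g2⟩ := hc t ht
    have := hφ _ _ (hA _ h1 _ g1)
    rw [h2, g2] at this
    rw [Real.dist_eq]
    simpa using this
  calc μH[1] (φ '' A) ≤ μH[1] ((fun t => φ (c t)) '' (Prod.snd '' A)) := measure_mono himg
    _ ≤ ((157 / 100 : ℝ≥0) : ℝ≥0∞) ^ (1 : ℝ) * μH[1] (Prod.snd '' A) :=
        hlip.hausdorffMeasure_image_le zero_le_one
    _ = ENNReal.ofReal (157 / 100) * volume (Prod.snd '' A) := by
        rw [ENNReal.rpow_one, hausdorffMeasure_real]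
        congr 1
        rw [ENNReal.ofReal]
        congr 1
        ext
        rw [Real.coe_toNNReal _ (by norm_num)]
        norm_num

/-- the length of half of the nodal set -/
theorem Dat.half_le (hF : F ∈ D.E) {M : ℝ} (hM : 0 < M) (hpot : ∀ x y, D.a x + D.b y ≤ M)
    {φ : ℝ × ℝ → E2}
    (hφ : ∀ p q : ℝ × ℝ, |p.1 - q.1| ≤ 6 / 5 * |p.2 - q.2| →
      dist (φ p) (φ q) ≤ 157 / 100 * |p.2 - q.2|) :
    μH[1] (φ '' half D F) ≤
      ENNReal.ofReal (157 / 100 * (D.L₂ * (D.L₁ * √M / Real.pi))) := by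
  classical
  have sF := Dat.E_sm hF
  rcases (half D F).eq_empty_or_nonempty with he | hne
  · rw [he, image_empty, measure_empty]; exact zero_le
  -- countable cover
  have hloc : ∀ p ∈ half D F, ∃ U : Set (ℝ × ℝ), IsOpen U ∧ p ∈ U ∧ ∀ q ∈ U, ∀ q' ∈ U,
      F q = 0 → F q' = 0 → |q.1 - q'.1| ≤ 6 / 5 * |q.2 - q'.2| :=
    fun p hp => local_lip sF hp.2.2.2.1 hp.2.2.2.2
  choose! U hUo hpU hUlip using hloc
  obtain ⟨t, ht, htc, hcov⟩ := TopologicalSpace.countable_cover_nhdsWithin (f := U)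
    (s := half D F) fun p hp => mem_nhdsWithin_of_mem_nhds ((hUo p hp).mem_nhds (hpU p hp))
  have htne : t.Nonempty := by
    obtain ⟨p, hp⟩ := hne
    obtain ⟨q, hq, -⟩ := mem_iUnion₂.1 (hcov hp)
    exact ⟨q, hq⟩
  obtain ⟨e, he⟩ := htc.exists_eq_range htne
  have het : ∀ n, e n ∈ half D F := fun n => ht (he ▸ mem_range_self n)
  let V : ℕ → Set (ℝ × ℝ) := fun n => U (e n)
  let A : ℕ → Set (ℝ × ℝ) := fun n => half D F ∩ disjointed V n
  have hVcov : half D F ⊆ ⋃ n, V n := by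
    intro p hp
    obtain ⟨q, hq, hpq⟩ := mem_iUnion₂.1 (hcov hp)
    rw [he] at hq
    obtain ⟨n, rfl⟩ := hq
    exact mem_iUnion.2 ⟨n, hpq⟩
  have hAU : half D F ⊆ ⋃ n, A n := by
    intro p hp
    have := hVcov hp
    rw [← iUnion_disjointed] at this
    obtain ⟨n, hn⟩ := mem_iUnion.1 this
    exact mem_iUnion.2 ⟨n, hp, hn⟩
  have hAV : ∀ n, A n ⊆ V n := fun n p hp => disjointed_subset V n hp.2
  have hAlip : ∀ n, ∀ p ∈ A n, ∀ q ∈ A n, |p.1 - q.1| ≤ 6 / 5 * |p.2 - q.2| :=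
    fun n p hp q hq => hUlip (e n) (het n) p (hAV n hp) q (hAV n hq) hp.1.2.2.1 hq.1.2.2.1
  have hAmeas : ∀ n, MeasurableSet (A n) := fun n =>
    (measurable_half sF).inter (MeasurableSet.disjointed
      (fun m => (hUo (e m) (het m)).measurableSet) n)
  have hAdisj : Pairwise (Function.onFun Disjoint A) := by
    intro m n hmn
    exact (disjoint_disjointed V hmn).mono inter_subset_right inter_subset_right
  let B : ℕ → Set ℝ := fun n => Prod.snd '' A n
  have hBmeas : ∀ n, MeasurableSet (B n) := fun n =>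
    (hAmeas n).image_of_continuousOn_injOn continuous_snd.continuousOn (by
      intro p hp q hq hpq
      have := hAlip n p hp q hq
      rw [hpq, sub_self, abs_zero, mul_zero] at this
      have h4 : p.1 = q.1 := by
        have := abs_nonpos_iff.1 this
        linarith
      exact Prod.ext h4 hpq)
  -- the total
  have hcount : ∀ y, (∑' n, (B n).indicator (fun _ => (1 : ℝ≥0∞)) y) ≤
      (Ico 0 D.L₂).indicator (fun _ => ENNReal.ofReal (D.L₁ * √M / Real.pi)) y := by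
    intro y
    by_cases hy : y ∈ Ico 0 D.L₂
    · rw [indicator_of_mem hy, ENNReal.tsum_eq_iSup_sum]
      refine iSup_le fun T => ?_
      have e1 : (∑ n ∈ T, (B n).indicator (fun _ => (1 : ℝ≥0∞)) y) =
          ((T.filter fun n => y ∈ B n).card : ℝ≥0∞) := by
        rw [Finset.card_filter, Nat.cast_sum]
        refine Finset.sum_congr rfl fun n _ => ?_
        by_cases h : y ∈ B n
        · rw [indicator_of_mem h, if_pos h, Nat.cast_one]
        · rw [indicator_of_notMem h, if_neg h, Nat.cast_zero]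
      rw [e1]
      set T' := T.filter fun n => y ∈ B n with hT'
      have hch : ∀ n ∈ T', ∃ x, (x, y) ∈ A n := by
        intro n hn
        obtain ⟨p, hp, hpy⟩ := (Finset.mem_filter.1 hn).2
        exact ⟨p.1, by rw [← hpy]; exact hp⟩
      choose! ξ hξ using hch
      have hinj : Set.InjOn ξ T' := by
        intro m hm n hn hmn
        by_contra hne'
        have h1 := hξ m hm
        have h2 := hξ n hn
        rw [hmn] at h1
        exact (Set.disjoint_left.1 (hAdisj hne') h1) h2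
      have hcard : (T'.image ξ).card = T'.card := Finset.card_image_of_injOn hinj
      have hb := Dat.card_x hF hM hpot y (Z := T'.image ξ)
        (fun z hz => by
          obtain ⟨n, hn, rfl⟩ := Finset.mem_image.1 hz
          exact (hξ n hn).1.1)
        (fun z hz => by
          obtain ⟨n, hn, rfl⟩ := Finset.mem_image.1 hz
          exact (hξ n hn).1.2.2.1)
        (fun z hz => by
          obtain ⟨n, hn, rfl⟩ := Finset.mem_image.1 hz
          exact (hξ n hn).1.2.2.2.1)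
      rw [hcard] at hb
      rw [← ENNReal.ofReal_natCast]
      exact ENNReal.ofReal_le_ofReal (by rw [le_div_iff₀ Real.pi_pos]; exact hb)
    · rw [indicator_of_notMem hy]
      refine le_of_eq (ENNReal.tsum_eq_zero.2 fun n => indicator_of_notMem ?_ _)
      rintro ⟨p, hp, rfl⟩
      exact hy hp.1.2.1
  have hvol : (∑' n, volume (B n)) ≤ ENNReal.ofReal (D.L₂ * (D.L₁ * √M / Real.pi)) := by
    calc (∑' n, volume (B n)) = ∑' n, ∫⁻ y, (B n).indicator (fun _ => (1 : ℝ≥0∞)) y := by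
          refine tsum_congr fun n => ?_
          rw [lintegral_indicator (hBmeas n), setLIntegral_one]
      _ = ∫⁻ y, ∑' n, (B n).indicator (fun _ => (1 : ℝ≥0∞)) y :=
          (lintegral_tsum fun n => (measurable_const.indicator (hBmeas n)).aemeasurable).symm
      _ ≤ ∫⁻ y, (Ico 0 D.L₂).indicator (fun _ => ENNReal.ofReal (D.L₁ * √M / Real.pi)) y :=
          lintegral_mono hcount
      _ = ENNReal.ofReal (D.L₂ * (D.L₁ * √M / Real.pi)) := by
          rw [lintegral_indicator measurableSet_Ico, setLIntegral_const, Real.volume_Ico, sub_zero,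
            mul_comm, ← ENNReal.ofReal_mul D.hL₂.le]
  calc μH[1] (φ '' half D F) ≤ μH[1] (⋃ n, φ '' A n) := by
        rw [← image_iUnion]
        exact measure_mono (image_mono hAU)
    _ ≤ ∑' n, μH[1] (φ '' A n) := measure_iUnion_le _
    _ ≤ ∑' n, ENNReal.ofReal (157 / 100) * volume (B n) :=
        ENNReal.tsum_le_tsum fun n => piece_le hφ (hAlip n)
    _ = ENNReal.ofReal (157 / 100) * ∑' n, volume (B n) := ENNReal.tsum_mul_left
    _ ≤ ENNReal.ofReal (157 / 100) * ENNReal.ofReal (D.L₂ * (D.L₁ * √M / Real.pi)) := by gcongr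
    _ = _ := by rw [← ENNReal.ofReal_mul (by norm_num)]

/-- the two coordinate maps to the Euclidean plane -/
noncomputable def φ₁ (p : ℝ × ℝ) : E2 := !₂[p.1, p.2]
/-- the same with the coordinates exchanged -/
noncomputable def φ₂ (p : ℝ × ℝ) : E2 := !₂[p.2, p.1]

theorem key_sqrt {s t : ℝ} (h : |s| ≤ 6 / 5 * |t|) : √(s ^ 2 + t ^ 2) ≤ 157 / 100 * |t| := by
  rw [Real.sqrt_le_left (by positivity)]
  have h1 : s ^ 2 ≤ (6 / 5 * |t|) ^ 2 := by
    rw [← sq_abs s]; exact pow_le_pow_left₀ (abs_nonneg _) h 2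
  have h2 : |t| ^ 2 = t ^ 2 := sq_abs t
  nlinarith [sq_nonneg t]

theorem φ₁_dist (p q : ℝ × ℝ) (h : |p.1 - q.1| ≤ 6 / 5 * |p.2 - q.2|) :
    dist (φ₁ p) (φ₁ q) ≤ 157 / 100 * |p.2 - q.2| := by
  have := key_sqrt h
  rw [EuclideanSpace.dist_eq, Fin.sum_univ_two]
  simpa [φ₁, Real.dist_eq, sq_abs] using this

theorem φ₂_dist (p q : ℝ × ℝ) (h : |p.1 - q.1| ≤ 6 / 5 * |p.2 - q.2|) :
    dist (φ₂ p) (φ₂ q) ≤ 157 / 100 * |p.2 - q.2| := by
  have := key_sqrt h
  rw [EuclideanSpace.dist_eq, Fin.sum_univ_two]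
  rw [add_comm] at this
  simpa [φ₂, Real.dist_eq, sq_abs] using this

/-- the nodal set in a period cell -/
def nodal (D : Dat) (F : ℝ × ℝ → ℝ) : Set E2 :=
  {p | p 0 ∈ Ico 0 D.L₁ ∧ p 1 ∈ Ico 0 D.L₂ ∧ F (p 0, p 1) = 0}

/-- the length of the nodal set of a solution -/
theorem Dat.nodal_le (hF : F ∈ D.E) (hne : F ≠ 0) {M : ℝ} (hM : 0 < M)
    (hpot : ∀ x y, D.a x + D.b y ≤ M) :
    μH[1] (nodal D F) ≤ ENNReal.ofReal (D.L₁ * D.L₂ * √M) := by
  have sF := Dat.E_sm hF
  have hcov : nodal D F ⊆ φ₁ '' half D F ∪ (φ₂ '' half D.swap (F ∘ Prod.swap) ∪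
      φ₁ '' sing F) := by
    intro p hp
    have hp1 : φ₁ (p 0, p 1) = p := by
      ext i; fin_cases i <;> rfl
    have hp2 : φ₂ (p 1, p 0) = p := by
      ext i; fin_cases i <;> rfl
    by_cases h1 : |dy F (p 0, p 1)| ≤ |dx F (p 0, p 1)|
    · by_cases h2 : dx F (p 0, p 1) = 0
      · refine Or.inr (Or.inr ⟨(p 0, p 1), ⟨hp.2.2, h2, ?_⟩, hp1⟩)
        rw [h2, abs_zero] at h1
        exact abs_nonpos_iff.1 h1
      · exact Or.inl ⟨(p 0, p 1), ⟨hp.1, hp.2.1, hp.2.2, h2, h1⟩, hp1⟩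
    · push Not at h1
      refine Or.inr (Or.inl ⟨(p 1, p 0), ⟨hp.2.1, hp.1, hp.2.2, ?_, ?_⟩, hp2⟩)
      · rw [dx_swap sF]
        show dy F (p 0, p 1) ≠ 0
        exact abs_pos.1 ((abs_nonneg _).trans_lt h1)
      · rw [dx_swap sF, dy_swap sF]
        exact h1.le
  have h1 := Dat.half_le hF hM hpot φ₁_dist
  have h2 := Dat.half_le (D := D.swap) (Dat.swap_mem hF) hM
    (fun x y => by have := hpot y x; simp only [Dat.swap]; linarith) φ₂_dist
  have h3 : μH[1] (φ₁ '' sing F) = 0 := by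
    have : NullSingletonClass (μH[1] : Measure E2) :=
      MeasureTheory.Measure.nullSingletonClass_hausdorff E2 one_pos
    exact ((Dat.sing_countable hF hne).image _).measure_zero _
  have hL₁ := D.hL₁
  have hL₂ := D.hL₂
  have hs := Real.sqrt_nonneg M
  calc μH[1] (nodal D F) ≤ μH[1] (φ₁ '' half D F) + (μH[1] (φ₂ '' half D.swap (F ∘ Prod.swap)) +
        μH[1] (φ₁ '' sing F)) := by
        refine (measure_mono hcov).trans ((measure_union_le _ _).trans ?_)
        gcongr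
        exact measure_union_le _ _
    _ ≤ ENNReal.ofReal (157 / 100 * (D.L₂ * (D.L₁ * √M / Real.pi))) +
        (ENNReal.ofReal (157 / 100 * (D.L₁ * (D.L₂ * √M / Real.pi))) + 0) := by
        rw [h3]
        gcongr
        exact h2
    _ ≤ ENNReal.ofReal (D.L₁ * D.L₂ * √M) := by
        rw [add_zero, ← ENNReal.ofReal_add (by positivity) (by positivity)]
        refine ENNReal.ofReal_le_ofReal ?_
        have hpi : (3.14 : ℝ) < Real.pi := Real.pi_gt_d2
        have e : 157 / 100 * (D.L₂ * (D.L₁ * √M / Real.pi)) +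
            157 / 100 * (D.L₁ * (D.L₂ * √M / Real.pi)) =
            (3.14 / Real.pi) * (D.L₁ * D.L₂ * √M) := by
          field_simp; ring
        rw [e]
        have h4 : 3.14 / Real.pi ≤ 1 := by
          rw [div_le_one Real.pi_pos]; exact hpi.le
        have h5 : 0 ≤ D.L₁ * D.L₂ * √M := by positivity
        nlinarith

end TH266.LT
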